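import Pool.Agent.K1H20.RS.PInt

set_option autoImplicit false
set_option linter.unusedSectionVars false
set_option linter.dupNamespace false

/-! # The integral of the resultant over a compact discrete valuation ring -/

namespace Pool.Agent.K1H20.RS.DV

open MeasureTheory IsLocalRing Pool.Agent.K1H20.RS Pool.Agent.K1H1.RS
open scoped ENNReal NNReal

section abs

variable (O : Type) [CommRing O] [IsDomain O] [IsDiscreteValuationRing O]

/-- the number of elements of the residue field -/
noncomputable def qq : ℕ := Nat.card (ResidueField O)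

variable {O}

/-- the valuation (`0` for `0`) -/
noncomputable def vl (x : O) : ℕ := (IsDiscreteValuationRing.addVal O x).toNat

/-- the absolute value `q ^ (-v(x))`, `|0| = 0` -/
noncomputable def av (x : O) : ℝ :=
  letI := Classical.propDecidable (x = 0)
  if x = 0 then 0 else ((qq O : ℝ)⁻¹) ^ vl x

theorem av_zero : av (0 : O) = 0 := by
  unfold av
  rw [if_pos rfl]

theorem av_of_ne {x : O} (hx : x ≠ 0) : av x = ((qq O : ℝ)⁻¹) ^ vl x := by
  unfold av
  rw [if_neg hx]

theorem addVal_ne_top {x : O} (hx : x ≠ 0) : IsDiscreteValuationRing.addVal O x ≠ ⊤ := by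
  rw [ne_eq, IsDiscreteValuationRing.addVal_eq_top_iff]
  exact hx

theorem vl_mul {x y : O} (hx : x ≠ 0) (hy : y ≠ 0) : vl (x * y) = vl x + vl y := by
  unfold vl
  rw [IsDiscreteValuationRing.addVal_mul, ENat.toNat_add (addVal_ne_top hx) (addVal_ne_top hy)]

theorem av_mul (x y : O) : av (x * y) = av x * av y := by
  by_cases hx : x = 0
  · rw [hx, zero_mul, av_zero, zero_mul]
  by_cases hy : y = 0
  · rw [hy, mul_zero, av_zero, mul_zero]
  rw [av_of_ne hx, av_of_ne hy, av_of_ne (mul_ne_zero hx hy), vl_mul hx hy, pow_add]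

theorem av_nonneg (x : O) : 0 ≤ av x := by
  by_cases hx : x = 0
  · rw [hx, av_zero]
  · rw [av_of_ne hx]
    positivity

theorem av_unit {x : O} (hx : IsUnit x) : av x = 1 := by
  rw [av_of_ne hx.ne_zero]
  have h1 : vl x = 0 := by
    unfold vl
    obtain ⟨u, rfl⟩ := hx
    rw [IsDiscreteValuationRing.addVal_eq_zero_of_unit]
    rfl
  rw [h1, pow_zero]

variable (O)

/-- a uniformizer -/
noncomputable def pi0 : O := (IsDiscreteValuationRing.exists_irreducible O).choose

theorem pi0_irr : Irreducible (pi0 O) := (IsDiscreteValuationRing.exists_irreducible O).choose_spec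

theorem pi0_ne : pi0 O ≠ 0 := (pi0_irr O).ne_zero

theorem av_pi0 : av (pi0 O) = (qq O : ℝ)⁻¹ := by
  rw [av_of_ne (pi0_ne O)]
  have h1 : vl (pi0 O) = 1 := by
    unfold vl
    rw [IsDiscreteValuationRing.addVal_uniformizer (pi0_irr O)]
    rfl
  rw [h1, pow_one]

theorem dvd_iff (k : ℕ) (x : O) : pi0 O ^ k ∣ x ↔
    (k : ℕ∞) ≤ IsDiscreteValuationRing.addVal O x := by
  rw [← IsDiscreteValuationRing.addVal_le_iff_dvd, IsDiscreteValuationRing.addVal_pow,
    IsDiscreteValuationRing.addVal_uniformizer (pi0_irr O), nsmul_eq_mul, mul_one]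

theorem dvd_pi0 (x : O) (h : residue O x = 0) : pi0 O ∣ x := by
  rw [residue_eq_zero_iff, (pi0_irr O).maximalIdeal_eq, Ideal.mem_span_singleton] at h
  exact h

variable [Finite (ResidueField O)]

theorem qq_one_lt : 1 < qq O := by
  unfold qq
  exact Finite.one_lt_card

theorem av_le_one (x : O) : av x ≤ 1 := by
  by_cases hx : x = 0
  · rw [hx, av_zero]
    exact zero_le_one
  · rw [av_of_ne hx]
    refine pow_le_one₀ (by positivity) (inv_le_one_of_one_le₀ ?_)
    exact_mod_cast (qq_one_lt O).le

end abs

section tau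

variable {O : Type} [CommRing O] [IsDomain O] [IsDiscreteValuationRing O]

/-- `|z| ^ s` -/
noncomputable def tau (s : ℝ) (z : O) : ℝ≥0∞ := ENNReal.ofReal (av z ^ s)

theorem tau_mul (s : ℝ) (x y : O) : tau s (x * y) = tau s x * tau s y := by
  unfold tau
  rw [av_mul, Real.mul_rpow (av_nonneg _) (av_nonneg _), ENNReal.ofReal_mul]
  exact Real.rpow_nonneg (av_nonneg _) _

theorem tau_unit (s : ℝ) {x : O} (h : IsUnit x) : tau s x = 1 := by
  unfold tau
  rw [av_unit h, Real.one_rpow, ENNReal.ofReal_one]

theorem tau_pow (s : ℝ) (x : O) (n : ℕ) : tau s (x ^ n) = tau s x ^ n := by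
  induction n with
  | zero => rw [pow_zero, pow_zero, tau_unit s isUnit_one]
  | succ n ih => rw [pow_succ, pow_succ, tau_mul, ih]

variable (O)

/-- `q ^ (-s)` -/
noncomputable def Tt (s : ℝ) : ℝ≥0∞ := ENNReal.ofReal ((qq O : ℝ) ^ (-s))

theorem tau_pi0 (s : ℝ) : tau s (pi0 O) = Tt O s := by
  unfold tau Tt
  rw [av_pi0, Real.inv_rpow (Nat.cast_nonneg _), Real.rpow_neg (Nat.cast_nonneg _)]

theorem Tt_toReal (s : ℝ) : (Tt O s).toReal = (qq O : ℝ) ^ (-s) :=
  ENNReal.toReal_ofReal (Real.rpow_nonneg (Nat.cast_nonneg _) _)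

theorem tau_le_one [Finite (ResidueField O)] (s : ℝ) (hs : 0 ≤ s) (z : O) : tau s z ≤ 1 := by
  unfold tau
  rw [← ENNReal.ofReal_one]
  exact ENNReal.ofReal_le_ofReal (Real.rpow_le_one (av_nonneg _) (av_le_one O z) hs)

end tau

section haar

variable (O : Type) [CommRing O] [IsDomain O] [IsDiscreteValuationRing O] [TopologicalSpace O]
  [IsTopologicalRing O] [CompactSpace O] [T2Space O] [SecondCountableTopology O]
  [Finite (ResidueField O)]

/-- The Borel `σ`-algebra. -/
@[reducible] noncomputable def msO : MeasurableSpace O := borel _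

attribute [local instance] msO

lemma bsO : BorelSpace O := ⟨rfl⟩

attribute [local instance] bsO

/-- The Haar probability measure. -/
noncomputable def mu : Measure O := Measure.addHaarMeasure ⊤

instance : IsProbabilityMeasure (mu O) := ⟨Measure.addHaarMeasure_self⟩

instance : (mu O).IsAddLeftInvariant := by unfold mu; infer_instance

instance : (mu O).IsAddHaarMeasure := by unfold mu; infer_instance

/-- The Haar probability measure on `O ^ ι`. -/
noncomputable abbrev hm (ι : Type) [Fintype ι] : Measure (ι → O) := Measure.pi fun _ => mu O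

theorem vl_meas : Measurable (vl : O → ℕ) := by
  refine measurable_to_countable' fun k => ?_
  have hD : ∀ j : ℕ, MeasurableSet {x : O | pi0 O ^ j ∣ x} := by
    intro j
    have h1 : {x : O | pi0 O ^ j ∣ x} = Set.range fun y => pi0 O ^ j * y := by
      ext x
      constructor
      · rintro ⟨y, rfl⟩
        exact ⟨y, rfl⟩
      · rintro ⟨y, rfl⟩
        exact ⟨y, rfl⟩
    rw [h1]
    exact (isCompact_range (by fun_prop)).isClosed.measurableSet
  have h2 : (vl : O → ℕ) ⁻¹' {k} = ({x : O | pi0 O ^ k ∣ x} \ {x : O | pi0 O ^ (k + 1) ∣ x}) ∪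
      (if k = 0 then {0} else ∅) := by
    ext x
    simp only [Set.mem_preimage, Set.mem_singleton_iff, Set.mem_union, Set.mem_sdiff,
      Set.mem_ofPred_eq]
    by_cases hx : x = 0
    · subst hx
      have h3 : vl (0 : O) = 0 := by
        unfold vl
        rw [IsDiscreteValuationRing.addVal_zero]
        rfl
      rw [h3]
      by_cases hk : k = 0
      · subst hk
        simp
      · rw [if_neg hk]
        simp [eq_comm, hk]
    · obtain ⟨v, hv⟩ := ENat.ne_top_iff_exists.1 (addVal_ne_top hx)
      have h3 : vl x = v := by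
        unfold vl
        rw [← hv]
        rfl
      rw [h3, dvd_iff, dvd_iff, ← hv]
      have h4 : x ∉ (if k = 0 then ({0} : Set O) else ∅) := by
        split_ifs
        · exact hx
        · exact id
      constructor
      · rintro rfl
        left
        refine ⟨le_rfl, ?_⟩
        rw [Nat.cast_le]
        omega
      · rintro (⟨h5, h6⟩ | h5)
        · rw [Nat.cast_le] at h5 h6
          omega
        · exact absurd h5 h4
  rw [h2]
  refine ((hD k).diff (hD (k + 1))).union ?_
  split_ifs
  · exact measurableSet_singleton _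
  · exact MeasurableSet.empty

theorem av_meas : Measurable (av : O → ℝ) := by
  have h1 : (av : O → ℝ) = fun x => Set.indicator {x : O | x ≠ 0}
      (fun x => ((qq O : ℝ)⁻¹) ^ vl x) x := by
    funext x
    by_cases hx : x = 0
    · rw [hx, av_zero, Set.indicator_of_notMem]
      simp
    · rw [av_of_ne hx, Set.indicator_of_mem]
      exact hx
  rw [h1]
  refine Measurable.indicator ?_ (measurableSet_singleton (0 : O)).compl
  exact (measurable_from_top (f := fun k : ℕ => ((qq O : ℝ)⁻¹) ^ k)).comp (vl_meas O)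

theorem tau_meas (s : ℝ) : Measurable (tau s : O → ℝ≥0∞) := by
  unfold tau
  exact ENNReal.measurable_ofReal.comp ((av_meas O).pow_const s)

variable {ι κ : Type} [Fintype ι] [Fintype κ]

theorem hm_unique (ν : Measure (ι → O)) [IsProbabilityMeasure ν] [ν.IsAddLeftInvariant] :
    ν = hm O ι := by
  have h1 : ∀ (ν : Measure (ι → O)) [IsProbabilityMeasure ν] [ν.IsAddLeftInvariant],
      ν = Measure.addHaarMeasure (⊤ : TopologicalSpace.PositiveCompacts (ι → O)) := by
    intro ν _ _
    have h := Measure.addHaarMeasure_unique ν (⊤ : TopologicalSpace.PositiveCompacts (ι → O))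
    rw [h]
    have : ν ((⊤ : TopologicalSpace.PositiveCompacts (ι → O)) : Set (ι → O)) = 1 :=
      measure_univ
    rw [this, one_smul]
  rw [h1 ν, h1 (hm O ι)]

/-- the image of the Haar measure under an equivariant map -/
theorem map_equivariant (Φ : (ι → O) → (κ → O)) (h : (κ → O) → (ι → O))
    (hΦ : Measurable Φ) (he : ∀ z y, Φ (h y + z) = y + Φ z) :
    (hm O ι).map Φ = hm O κ := by
  have h1 : IsProbabilityMeasure ((hm O ι).map Φ) := Measure.isProbabilityMeasure_map hΦ.aemeasurable
  have h2 : ((hm O ι).map Φ).IsAddLeftInvariant := by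
    refine ⟨fun y => ?_⟩
    rw [Measure.map_map (measurable_const_add y) hΦ]
    have h3 : ((fun x => y + x) ∘ Φ) = Φ ∘ (fun z => h y + z) := by
      funext z
      exact (he z y).symm
    rw [h3, ← Measure.map_map hΦ (measurable_const_add (h y)), map_add_left_eq_self]
  exact hm_unique O _

theorem lintegral_equivariant (Φ : (ι → O) → (κ → O)) (h : (κ → O) → (ι → O))
    (hΦ : Measurable Φ) (he : ∀ z y, Φ (h y + z) = y + Φ z) (g : (κ → O) → ℝ≥0∞)
    (hg : Measurable g) : ∫⁻ z, g (Φ z) ∂(hm O ι) = ∫⁻ y, g y ∂(hm O κ) := by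
  rw [← map_equivariant O Φ h hΦ he, lintegral_map hg hΦ]

/-- integration over a sum of index sets -/
theorem lintegral_sum {K V : Type} [Fintype K] [Fintype V] (g : (K ⊕ V → O) → ℝ≥0∞)
    (hg : Measurable g) : ∫⁻ z, g z ∂(hm O (K ⊕ V)) =
      ∫⁻ x, ∫⁻ y, g (Sum.elim y x) ∂(hm O K) ∂(hm O V) := by
  have h1 := (measurePreserving_sumPiEquivProdPi_symm (fun _ : K ⊕ V => mu O))
  have h2 := h1.lintegral_comp hg
  rw [← h2]
  exact lintegral_prod_symm' _ (hg.comp h1.measurable)

/-- representatives of the residue classes -/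
noncomputable def rep (r : ResidueField O) : O :=
  letI := Classical.propDecidable (r = 0)
  if r = 0 then 0 else Function.surjInv (residue_surjective (R := O)) r

theorem rep_zero : rep O 0 = 0 := by
  unfold rep
  rw [if_pos rfl]

theorem residue_rep (r : ResidueField O) : residue O (rep O r) = r := by
  unfold rep
  split_ifs with h
  · rw [map_zero, h]
  · exact Function.surjInv_eq _ r

noncomputable local instance : Fintype (ResidueField O) := Fintype.ofFinite _

theorem qq_eq : qq O = Fintype.card (ResidueField O) := by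
  unfold qq
  exact Nat.card_eq_fintype_card

variable [DecidableEq ι]

/-- sum over the residue classes -/
noncomputable def smV (g : (ι → O) → ℝ≥0∞) : ℝ≥0∞ :=
  ∑ w : ι → ResidueField O, ((qq O : ℝ≥0∞)⁻¹) ^ Fintype.card ι *
    ∫⁻ z, g (fun i => rep O (w i) + pi0 O * z i) ∂(hm O ι)

theorem smV_trans (g : (ι → O) → ℝ≥0∞) (t : ι → O) :
    smV O (fun z => g (t + z)) = smV O g := by
  unfold smV
  refine Fintype.sum_equiv (Equiv.addLeft (fun i => residue O (t i))) _ _ fun w => ?_
  congr 1
  set w' : ι → ResidueField O := (fun i => residue O (t i)) + w with hw'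
  have h1 : ∀ i, ∃ c, t i + rep O (w i) - rep O (w' i) = pi0 O * c := by
    intro i
    obtain ⟨c, hc⟩ := dvd_pi0 O (t i + rep O (w i) - rep O (w' i)) (by
      rw [map_sub, map_add, residue_rep, residue_rep, hw', Pi.add_apply, sub_self])
    exact ⟨c, hc⟩
  choose c hc using h1
  have hw2 : (Equiv.addLeft fun i => residue O (t i)) w = w' := rfl
  rw [hw2]
  rw [← lintegral_add_left_eq_self (μ := hm O ι)
    (fun z => g (fun i => rep O (w' i) + pi0 O * z i)) c]
  refine lintegral_congr fun z => ?_
  change g _ = g _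
  congr 1
  funext i
  simp only [Pi.add_apply]
  linear_combination hc i

theorem meas_affV (w : ι → O) :
    Measurable (fun (z : ι → O) (i : ι) => w i + pi0 O * z i) := by
  refine Continuous.measurable ?_
  fun_prop

/-- **Self-similarity** of the Haar measure. -/
theorem lintegral_smV (g : (ι → O) → ℝ≥0∞) (hg : Measurable g) :
    ∫⁻ z, g z ∂(hm O ι) = smV O g := by
  set ν : Measure (ι → O) := ((qq O : ℝ≥0∞)⁻¹) ^ Fintype.card ι • ∑ w : ι → ResidueField O,
    (hm O ι).map (fun (z : ι → O) (i : ι) => rep O (w i) + pi0 O * z i) with hν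
  have h1 : ∀ g : (ι → O) → ℝ≥0∞, Measurable g → ∫⁻ z, g z ∂ν = smV O g := by
    intro g hg
    rw [hν, lintegral_smul_measure, lintegral_finsetSum_measure, smul_eq_mul, Finset.mul_sum]
    refine Finset.sum_congr rfl fun w _ => ?_
    rw [lintegral_map hg (meas_affV O _)]
  have hpr : IsProbabilityMeasure ν := by
    refine ⟨?_⟩
    have := h1 1 measurable_one
    simp only [Pi.one_apply, lintegral_one] at this
    rw [this, smV]
    simp only [Pi.one_apply, lintegral_one, measure_univ, mul_one, Finset.sum_const,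
      Finset.card_univ, Fintype.card_pi, Finset.prod_const, nsmul_eq_mul]
    rw [← qq_eq, Nat.cast_pow, ← mul_pow, ENNReal.mul_inv_cancel, one_pow]
    · have := qq_one_lt O
      exact_mod_cast (by omega : qq O ≠ 0)
    · exact ENNReal.natCast_ne_top _
  have hinv : ν.IsAddLeftInvariant := by
    refine ⟨fun t => ?_⟩
    refine Measure.ext_of_lintegral _ fun g hg => ?_
    rw [lintegral_map hg (measurable_const_add t), h1 g hg]
    exact (h1 _ (hg.comp (measurable_const_add t))).trans (smV_trans O g t)
  rw [← h1 g hg, hm_unique O ν]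

end haar

end Pool.Agent.K1H20.RS.DV
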