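import Pool.Agent.K1H20.RS.DInt

set_option autoImplicit false
set_option linter.unusedSectionVars false
set_option linter.dupNamespace false

/-! # The integral of the resultant over a compact discrete valuation ring -/

namespace Pool.Agent.K1H20.RS.DV

open MeasureTheory IsLocalRing Pool.Agent.K1H20.RS Pool.Agent.K1H1.RS
open scoped ENNReal NNReal

section alg

variable {R : Type*} [CommRing R]

/-- combinations of `u` and `g` -/
theorem surG (n k m : ℕ) (g : Fin (n + 1) → R) (u : Fin (k + 1) → R)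
    (hr : IsUnit (Polynomial.resultant (pl u) (pl g) k n)) (hk : 1 ≤ k) (hn : n ≤ m + 1)
    (F : Fin (m + k + 1) → R) : ∃ (f : Fin (m + 1) → R) (a : Fin (m + k + 1 - n) → R),
      pl F = pl u * pl f + pl g * pl a := by
  obtain ⟨f, a, hf, ha, h⟩ := step2 hk (natDegree_pl_le u) (natDegree_pl_le g) hr (m + 1 - n) (pl F)
    ((degree_pl_lt F).trans_le (by exact_mod_cast (by omega : m + k + 1 ≤ k + n + (m + 1 - n))))
  refine ⟨fun i => f.coeff i, fun i => a.coeff i, ?_⟩
  rw [← eq_pl (k := m + 1) f (hf.trans_le (by exact_mod_cast (by omega : n + (m + 1 - n) ≤ m + 1))),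
    ← eq_pl (k := m + k + 1 - n) a
      (ha.trans_le (by exact_mod_cast (by omega : k + (m + 1 - n) ≤ m + k + 1 - n)))]
  exact h

/-- a polynomial of degree `k` prime to a primitive polynomial modulo the maximal ideal -/
theorem uG [IsLocalRing R] (n k : ℕ) (g : Fin (n + 1) → R) (hg : ∃ j, IsUnit (g j)) (hnk : n < k) :
    ∃ u : Fin (k + 1) → R, IsUnit (Polynomial.resultant (pl u) (pl g) k n) := by
  obtain ⟨j, hj⟩ := hg
  set φ : R →+* ResidueField R := residue R with hφ
  have hunit : ∀ x : R, φ x ≠ 0 → IsUnit x := by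
    intro x hx
    exact (residue_ne_zero_iff_isUnit x).1 hx
  set G : Polynomial (ResidueField R) := (pl g).map φ with hG
  have hG0 : G ≠ 0 := by
    intro h0
    have h1 : G.coeff j = φ (g j) := by
      rw [hG, Polynomial.coeff_map, coeff_pl]
    rw [h0, Polynomial.coeff_zero] at h1
    exact (hj.map φ).ne_zero h1.symm
  have hGn : G.natDegree ≤ n := Polynomial.natDegree_map_le.trans (natDegree_pl_le g)
  set e := G.natDegree with he
  set V : Polynomial (ResidueField R) := G * Polynomial.X ^ (k - e) + 1 with hV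
  have hd : (G * Polynomial.X ^ (k - e)).natDegree = k := by
    rw [Polynomial.natDegree_mul_X_pow _ hG0]
    omega
  have hVd : V.natDegree = k := by
    rw [hV, Polynomial.natDegree_add_eq_left_of_natDegree_lt, hd]
    rw [Polynomial.natDegree_one, hd]
    omega
  have hV0 : V ≠ 0 := by
    intro h0
    rw [h0, Polynomial.natDegree_zero] at hVd
    omega
  have hcop : IsCoprime V G := ⟨1, -Polynomial.X ^ (k - e), by rw [hV]; ring⟩
  obtain ⟨lift, hlift⟩ := (residue_surjective (R := R)).hasRightInverse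
  refine ⟨fun i => lift (V.coeff i), hunit _ ?_⟩
  have hmap : (pl fun i : Fin (k + 1) => lift (V.coeff i)).map φ = V := by
    rw [pl_map]
    have h5 : ∀ x, φ (lift x) = x := hlift
    simp only [h5]
    refine (eq_pl V ?_).symm
    rw [Polynomial.degree_eq_natDegree hV0, hVd]
    exact_mod_cast Nat.lt_succ_self k
  rw [← Polynomial.resultant_map_map, hmap, ← hG]
  have h2 : Polynomial.resultant V G k n = V.coeff k ^ (n - e) * Polynomial.resultant V G k e := by
    conv_lhs => rw [show n = e + (n - e) by omega]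
    exact Polynomial.resultant_add_right_deg _ _ _ _ _ le_rfl
  rw [h2]
  refine mul_ne_zero (pow_ne_zero _ ?_) ?_
  · rw [← hVd, Polynomial.coeff_natDegree]
    exact Polynomial.leadingCoeff_ne_zero.mpr hV0
  · rw [← hVd, he]
    exact Polynomial.resultant_ne_zero V G hcop

end alg

variable (O : Type) [CommRing O] [IsDomain O] [IsDiscreteValuationRing O] [TopologicalSpace O]
  [IsTopologicalRing O] [CompactSpace O] [T2Space O] [SecondCountableTopology O]
  [Finite (ResidueField O)]

attribute [local instance] msO bsO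

noncomputable local instance : Fintype (ResidueField O) := Fintype.ofFinite _

noncomputable local instance : DecidableEq (ResidueField O) := Classical.decEq _

theorem rs_cont (m n : ℕ) : Continuous fun z : Co m n → O => rs m n z := by
  have : (fun z : Co m n → O => rs m n z) =
      fun z => MvPolynomial.eval z (MvPolynomial.map (Int.castRingHom O) (RS m n)) := by
    funext z
    rw [← aeval_RS, MvPolynomial.aeval_def, MvPolynomial.eval_map]
    rfl
  rw [this]
  exact MvPolynomial.continuous_eval _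

theorem taurs_meas (m n : ℕ) (s : ℝ) : Measurable fun z : Co m n → O => tau s (rs m n z) :=
  (tau_meas O s).comp (rs_cont O m n).measurable

/-- the integral -/
noncomputable def AA (m n : ℕ) (s : ℝ) : ℝ≥0∞ := ∫⁻ z, tau s (rs m n z) ∂(hm O (Co m n))

/-- the integral over the first polynomial -/
noncomputable def EE (m n : ℕ) (s : ℝ) (g : Fin (n + 1) → O) : ℝ≥0∞ :=
  ∫⁻ f, tau s (rs m n (Sum.elim f g)) ∂(hm O (Fin (m + 1)))

theorem AA_EE (m n : ℕ) (s : ℝ) : AA O m n s = ∫⁻ g, EE O m n s g ∂(hm O (Fin (n + 1))) :=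
  lintegral_sum O _ (taurs_meas O m n s)

theorem EE_meas (m n : ℕ) (s : ℝ) : Measurable (EE O m n s) := by
  unfold EE
  have h1 : Measurable (fun x : (Fin (n + 1) → O) × (Fin (m + 1) → O) =>
      tau s (rs m n (Sum.elim x.2 x.1))) := by
    refine (taurs_meas O m n s).comp (Continuous.measurable ?_)
    refine continuous_pi fun i => ?_
    rcases i with i | i
    · exact (continuous_apply i).comp continuous_snd
    · exact (continuous_apply i).comp continuous_fst
  exact h1.lintegral_prod_right'

theorem rs_elim (m n : ℕ) (f : Fin (m + 1) → O) (g : Fin (n + 1) → O) :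
    rs m n (Sum.elim f g) = Polynomial.resultant (pl f) (pl g) m n := rfl

/-- multiplication of `g` by the uniformizer -/
theorem EE_smul (m n : ℕ) (s : ℝ) (g : Fin (n + 1) → O) :
    EE O m n s (fun i => pi0 O * g i) = Tt O s ^ m * EE O m n s g := by
  unfold EE
  rw [← lintegral_const_mul]
  · refine lintegral_congr fun f => ?_
    rw [rs_elim, rs_elim, pl_smul, Polynomial.resultant_C_mul_right, tau_mul, tau_pow, tau_pi0]
  · refine (taurs_meas O m n s).comp (Continuous.measurable ?_)
    refine continuous_pi fun i => ?_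
    rcases i with i | i
    · exact continuous_apply i
    · exact continuous_const

/-- the part with primitive `g` -/
noncomputable def UU (m n : ℕ) (s : ℝ) : ℝ≥0∞ :=
  ∑ w ∈ (Finset.univ : Finset (Fin (n + 1) → ResidueField O)).erase 0,
    ((qq O : ℝ≥0∞)⁻¹) ^ (n + 1) *
      ∫⁻ z, EE O m n s (fun i => rep O (w i) + pi0 O * z i) ∂(hm O (Fin (n + 1)))

theorem AA_eq (m n : ℕ) (s : ℝ) :
    AA O m n s = UU O m n s + ((qq O : ℝ≥0∞)⁻¹) ^ (n + 1) * (Tt O s ^ m * AA O m n s) := by
  have h0 : AA O m n s = smV O (EE O m n s) := by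
    rw [AA_EE, lintegral_smV O _ (EE_meas O m n s)]
  conv_lhs => rw [h0]
  unfold smV
  rw [← Finset.sum_erase_add _ _ (Finset.mem_univ (0 : Fin (n + 1) → ResidueField O))]
  simp only [Fintype.card_fin]
  unfold UU
  congr 1
  congr 1
  rw [AA_EE, ← lintegral_const_mul _ (EE_meas O m n s)]
  refine lintegral_congr fun z => ?_
  rw [← EE_smul]
  congr 1
  funext i
  rw [Pi.zero_apply, rep_zero, zero_add]

/-- the integral for a primitive `g` does not depend on the degree of the first polynomial -/
theorem EE_prim (m n k : ℕ) (s : ℝ) (g : Fin (n + 1) → O) (hg : ∃ j, IsUnit (g j))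
    (hnm : n ≤ m + 1) (hnk : n < k) : EE O (m + k) n s g = EE O m n s g := by
  obtain ⟨u, hu⟩ := uG n k g hg hnk
  choose f a hfa using fun F => surG n k m g u hu (by omega) hnm F
  set Φ : (Fin (m + 1) ⊕ Fin (m + k + 1 - n) → O) → (Fin (m + k + 1) → O) :=
    fun z i => (pl u * pl (fun i => z (Sum.inl i)) + pl g * pl (fun i => z (Sum.inr i))).coeff i
    with hΦ
  set h : (Fin (m + k + 1) → O) → (Fin (m + 1) ⊕ Fin (m + k + 1 - n) → O) :=
    fun F => Sum.elim (f F) (a F) with hh
  have hpl : ∀ {K : ℕ} (i : ℕ), Continuous fun z : Fin K → O => (pl z).coeff i := by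
    intro K i
    simp only [pl_coeff']
    split_ifs with hi
    · exact continuous_apply _
    · exact continuous_const
  have hc : Continuous Φ := by
    refine continuous_pi fun i => ?_
    rw [hΦ]
    simp only [Polynomial.coeff_add, Polynomial.coeff_mul]
    refine Continuous.add ?_ ?_
    · refine continuous_finsetSum _ fun x _ => continuous_const.mul ?_
      exact (hpl x.2).comp (continuous_pi fun j => continuous_apply _)
    · refine continuous_finsetSum _ fun x _ => continuous_const.mul ?_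
      exact (hpl x.2).comp (continuous_pi fun j => continuous_apply _)
  have hΦadd : ∀ z z', Φ (z + z') = Φ z + Φ z' := by
    intro z z'
    funext i
    rw [hΦ]
    simp only [Pi.add_apply]
    have h1 : (pl fun i : Fin (m + 1) => z (Sum.inl i) + z' (Sum.inl i)) =
        pl (fun i => z (Sum.inl i)) + pl (fun i => z' (Sum.inl i)) := pl_add _ _
    have h2 : (pl fun i : Fin (m + k + 1 - n) => z (Sum.inr i) + z' (Sum.inr i)) =
        pl (fun i => z (Sum.inr i)) + pl (fun i => z' (Sum.inr i)) := pl_add _ _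
    rw [h1, h2, ← Polynomial.coeff_add]
    congr 1
    ring
  have hΦh : ∀ F, Φ (h F) = F := by
    intro F
    funext i
    rw [hΦ, hh]
    simp only [Sum.elim_inl, Sum.elim_inr]
    rw [← hfa F, coeff_pl]
  have he : ∀ z y, Φ (h y + z) = y + Φ z := fun z y => by rw [hΦadd, hΦh]
  have hdeg : ∀ z : Fin (m + 1) ⊕ Fin (m + k + 1 - n) → O,
      (pl (Φ z)) = pl u * pl (fun i => z (Sum.inl i)) + pl g * pl (fun i => z (Sum.inr i)) := by
    intro z
    refine (eq_pl _ ?_).symm
    refine (Polynomial.degree_add_le _ _).trans_lt (max_lt ?_ ?_)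
    · refine lt_of_le_of_lt (Polynomial.degree_le_natDegree) ?_
      have h1 := Polynomial.natDegree_mul_le (p := pl u) (q := pl fun i : Fin (m + 1) => z (Sum.inl i))
      have h2 := natDegree_pl_le u
      have h3 := natDegree_pl_le fun i : Fin (m + 1) => z (Sum.inl i)
      exact_mod_cast (by omega : (pl u * pl fun i : Fin (m + 1) => z (Sum.inl i)).natDegree <
        m + k + 1)
    · refine lt_of_le_of_lt (Polynomial.degree_mul_le _ _) ?_
      have h2 := natDegree_pl_le g
      have h3 := degree_pl_lt fun i : Fin (m + k + 1 - n) => z (Sum.inr i)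
      rcases eq_or_ne (pl fun i : Fin (m + k + 1 - n) => z (Sum.inr i)) 0 with h0 | h0
      · rw [h0, Polynomial.degree_zero]
        simp
      · rw [Polynomial.degree_eq_natDegree h0] at h3 ⊢
        have h4 : (pl fun i : Fin (m + k + 1 - n) => z (Sum.inr i)).natDegree < m + k + 1 - n := by
          exact_mod_cast h3
        refine lt_of_le_of_lt (add_le_add_left (Polynomial.degree_le_natDegree) _) ?_
        exact_mod_cast (by omega : (pl g).natDegree +
          (pl fun i : Fin (m + k + 1 - n) => z (Sum.inr i)).natDegree < m + k + 1)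
  have hmeas : ∀ M, Measurable fun F : Fin (M + 1) → O => tau s (rs M n (Sum.elim F g)) := by
    intro M
    refine (taurs_meas O M n s).comp (Continuous.measurable ?_)
    refine continuous_pi fun i => ?_
    rcases i with i | i
    · exact continuous_apply i
    · exact continuous_const
  unfold EE
  rw [← lintegral_equivariant O Φ h hc.measurable he _ (hmeas (m + k))]
  have h1 : ∀ z : Fin (m + 1) ⊕ Fin (m + k + 1 - n) → O,
      tau s (rs (m + k) n (Sum.elim (Φ z) g)) =
        tau s (rs m n (Sum.elim (fun i => z (Sum.inl i)) g)) := by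
    intro z
    rw [rs_elim, rs_elim, hdeg, res_comb _ _ _ _ k m n (natDegree_pl_le u) (natDegree_pl_le _)
      (natDegree_pl_le g), tau_mul, tau_unit s hu, one_mul]
    have h3 : (pl fun i : Fin (m + k + 1 - n) => z (Sum.inr i)).natDegree ≤ m + k - n := by
      refine Polynomial.natDegree_le_iff_degree_le.2 ?_
      have h4 := degree_pl_lt fun i : Fin (m + k + 1 - n) => z (Sum.inr i)
      have h5 : m + k + 1 - n = (m + k - n) + 1 := by omega
      rw [Polynomial.degree_le_iff_coeff_zero]
      intro N hN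
      rw [Polynomial.degree_lt_iff_coeff_zero] at h4
      refine h4 N ?_
      have h6 : m + k - n < N := by exact_mod_cast hN
      omega
    omega
  simp only [h1]
  rw [lintegral_sum O (fun z : Fin (m + 1) ⊕ Fin (m + k + 1 - n) → O =>
    tau s (rs m n (Sum.elim (fun i => z (Sum.inl i)) g)))]
  · simp
  · exact (hmeas m).comp (Continuous.measurable (continuous_pi fun i => continuous_apply _))

theorem UU_eq (m n k : ℕ) (s : ℝ) (hnm : n ≤ m + 1) (hnk : n < k) :
    UU O (m + k) n s = UU O m n s := by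
  unfold UU
  refine Finset.sum_congr rfl fun w hw => ?_
  congr 1
  refine lintegral_congr fun z => ?_
  refine EE_prim O m n k s _ ?_ hnm hnk
  have h1 : w ≠ 0 := Finset.ne_of_mem_erase hw
  obtain ⟨j, hj⟩ := Function.ne_iff.1 h1
  refine ⟨j, ?_⟩
  rw [← residue_ne_zero_iff_isUnit, map_add, map_mul, residue_rep]
  have h2 : residue O (pi0 O) = 0 := by
    rw [residue_eq_zero_iff, (pi0_irr O).maximalIdeal_eq]
    exact Ideal.mem_span_singleton_self _
  rw [h2, zero_mul, add_zero]
  exact hj

theorem UU_eq' (m m' n : ℕ) (s : ℝ) (h : n ≤ m + 1) (h' : n ≤ m' + 1) :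
    UU O m n s = UU O m' n s := by
  rw [← UU_eq O m n (n + 1 + m') s h (by omega), ← UU_eq O m' n (n + 1 + m) s h' (by omega)]
  congr 1
  omega

theorem AA_symm (m n : ℕ) (s : ℝ) : AA O m n s = AA O n m s := by
  unfold AA
  rw [← lintegral_equivariant O (fun (z : Co m n → O) (i : Co n m) => z i.swap)
    (fun y i => y i.swap) (Continuous.measurable (continuous_pi fun i => continuous_apply _)) ?_ _
    (taurs_meas O n m s)]
  · refine lintegral_congr fun z => ?_
    unfold rs
    simp only [Sum.swap_inl, Sum.swap_inr]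
    rw [Polynomial.resultant_comm, tau_mul, tau_unit s (isUnit_one.neg.pow _), one_mul]
  · intro z y
    funext i
    simp

theorem AA_zero (s : ℝ) : AA O 0 0 s = 1 := by
  unfold AA rs
  simp [tau_unit s isUnit_one]

theorem AA_le (m n : ℕ) (s : ℝ) (hs : 0 ≤ s) : AA O m n s ≤ 1 := by
  unfold AA
  refine (lintegral_mono fun z => tau_le_one O s hs _).trans ?_
  rw [lintegral_one, measure_univ]

section real

variable (s : ℝ) (hs : 0 ≤ s)

include hs

theorem AA_top (m n : ℕ) : AA O m n s ≠ ⊤ := ne_top_of_le_ne_top ENNReal.one_ne_top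
  (AA_le O m n s hs)

theorem UU_top (m n : ℕ) : UU O m n s ≠ ⊤ := by
  refine ne_top_of_le_ne_top (AA_top O s hs m n) ?_
  conv_rhs => rw [AA_eq]
  exact le_self_add

theorem real_eq (m n : ℕ) :
    (AA O m n s).toReal * (1 - ((qq O : ℝ)⁻¹) ^ (n + 1) * ((qq O : ℝ) ^ (-s)) ^ m) =
    (UU O m n s).toReal := by
  have h1 := congrArg ENNReal.toReal (AA_eq O m n s)
  have h2 : ((qq O : ℝ≥0∞)⁻¹) ^ (n + 1) * (Tt O s ^ m * AA O m n s) ≠ ⊤ := by
    refine ne_top_of_le_ne_top (AA_top O s hs m n) ?_
    conv_rhs => rw [AA_eq]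
    exact le_add_self
  rw [ENNReal.toReal_add (UU_top O s hs m n) h2, ENNReal.toReal_mul, ENNReal.toReal_mul,
    ENNReal.toReal_pow, ENNReal.toReal_pow, Tt_toReal, ENNReal.toReal_inv,
    ENNReal.toReal_natCast] at h1
  linear_combination h1

theorem UU_zero : (UU O 0 0 s).toReal = 1 - (qq O : ℝ)⁻¹ := by
  rw [← real_eq O s hs, AA_zero]
  simp

/-- the recursion -/
theorem UU_rec (n : ℕ) :
    (UU O (n + 1) (n + 1) s).toReal *
        (1 - ((qq O : ℝ)⁻¹) ^ (n + 1) * ((qq O : ℝ) ^ (-s)) ^ (n + 1)) =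
      (UU O n n s).toReal * (1 - ((qq O : ℝ)⁻¹) ^ (n + 2) * ((qq O : ℝ) ^ (-s)) ^ n) := by
  rw [UU_eq' O (n + 1) n (n + 1) s (by omega) (by omega),
    UU_eq' O n (n + 1) n s (by omega) (by omega), ← real_eq O s hs, ← real_eq O s hs,
    AA_symm O (n + 1) n s]
  ring

theorem UU_form (n : ℕ) :
    (UU O n n s).toReal *
        ∏ j ∈ Finset.range n, (1 - ((qq O : ℝ)⁻¹) ^ (j + 1) * ((qq O : ℝ) ^ (-s)) ^ (j + 1)) =
      (1 - (qq O : ℝ)⁻¹) *
        ∏ j ∈ Finset.range n, (1 - ((qq O : ℝ)⁻¹) ^ (j + 2) * ((qq O : ℝ) ^ (-s)) ^ j) := by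
  induction n with
  | zero => simp [UU_zero O s hs]
  | succ n ih =>
    rw [Finset.prod_range_succ, Finset.prod_range_succ]
    have h := UU_rec O s hs n
    linear_combination
      (∏ j ∈ Finset.range n, (1 - ((qq O : ℝ)⁻¹) ^ (j + 1) * ((qq O : ℝ) ^ (-s)) ^ (j + 1))) * h +
      (1 - ((qq O : ℝ)⁻¹) ^ (n + 2) * ((qq O : ℝ) ^ (-s)) ^ n) * ih

/-- **The formula for the integral.** -/
theorem AA_form (m n : ℕ) (h : n ≤ m + 1) :
    (AA O m n s).toReal *
      ((∏ j ∈ Finset.range n, (1 - ((qq O : ℝ)⁻¹) ^ (j + 1) * ((qq O : ℝ) ^ (-s)) ^ (j + 1))) *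
      (1 - ((qq O : ℝ)⁻¹) ^ (n + 1) * ((qq O : ℝ) ^ (-s)) ^ m)) =
      (1 - (qq O : ℝ)⁻¹) *
        ∏ j ∈ Finset.range n, (1 - ((qq O : ℝ)⁻¹) ^ (j + 2) * ((qq O : ℝ) ^ (-s)) ^ j) := by
  rw [← UU_form O s hs n, UU_eq' O n m n s (by omega) h, ← real_eq O s hs m n]
  ring

end real

end Pool.Agent.K1H20.RS.DV
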