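import Pool.Agent.K1H20.RS.PInt
import Pool.Agent.K1H63.RS.NC
import Pool.Agent.K1H14.RS.SW
import Pool.Agent.K1H74.RS.Spec
import Pool.Agent.K1H74.RS.Ch
import Pool.Agent.K1H68.RS.Dir
import Pool.Agent.K1H68.RS.Root

set_option autoImplicit false
set_option linter.unusedSectionVars false
set_option linter.dupNamespace false

/-! # Orders of the poles and multiplicities of the roots for the resultant -/

namespace Pool.Agent.K1H20.RS

open Pool.Agent.W427.SMC Pool.Agent.TH192.PA MeasureTheory Polynomial Pool.Agent.H628R4.TP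

/-- The factors of the denominator which vanish for the real part `r`, and the multiplicity. -/
theorem card_le (m n : ℕ) (h : n ≤ m) (r : ℝ) (hr0 : m = n → r ≠ -(((n : ℝ) + 1) / n))
    (b : ℂ[X]) (hb0 : b ≠ 0)
    (h1 : (X + 1 : ℂ[X]) ^ n ∣ b) (h2 : m = n + 1 → (X + 1 : ℂ[X]) ^ m ∣ b)
    (h3 : n + 2 ≤ m → b.eval (-((n : ℂ) + 1) / m) = 0) :
    Nat.card {i // 0 < NR m n i ∧ r = -((nuR n i : ℝ) / NR m n i)} ≤
      b.rootMultiplicity (r : ℂ) := by
  classical
  have hcard : Nat.card {i // 0 < NR m n i ∧ r = -((nuR n i : ℝ) / NR m n i)} =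
      (if r = -1 then n else 0) + (if 0 < m ∧ r = -(((n : ℝ) + 1) / m) then 1 else 0) := by
    rw [Nat.card_eq_fintype_card, Fintype.card_subtype, Finset.card_filter, Fintype.sum_sum_type]
    congr 1
    · have h4 : ∀ j : Fin n, (0 < NR m n (Sum.inl j) ∧
          r = -((nuR n (Sum.inl j) : ℝ) / NR m n (Sum.inl j))) ↔ r = -1 := by
        intro j
        simp only [NR, nuR, Sum.elim_inl]
        have h5 : (((j : ℕ) + 1 : ℕ) : ℝ) ≠ 0 := by positivity
        rw [div_self h5]
        simp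
      simp only [h4]
      split_ifs <;> simp
    · simp only [NR, nuR, Sum.elim_inr, Finset.univ_unique, Finset.sum_singleton]
      push_cast
      rfl
  rw [hcard]
  have hX : (X + 1 : ℂ[X]) = X - C (-1) := by
    rw [C_neg, C_1, sub_neg_eq_add]
  by_cases hr : r = -1
  · rw [if_pos hr, hr]
    have h4 : (((-1 : ℝ)) : ℂ) = -1 := by push_cast; rfl
    rw [h4]
    by_cases hm : m = n + 1
    · have h5 := h2 hm
      rw [hX] at h5
      have h6 := (Polynomial.le_rootMultiplicity_iff hb0).2 h5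
      split_ifs <;> omega
    · rw [if_neg]
      · rw [hX] at h1
        exact (Polynomial.le_rootMultiplicity_iff hb0).2 h1
      · rintro ⟨hm0, h5⟩
        apply hm
        have h6 : ((n : ℝ) + 1) / m = 1 := by linarith
        have hm0' : (m : ℝ) ≠ 0 := by positivity
        rw [div_eq_one_iff_eq hm0'] at h6
        exact_mod_cast h6.symm
  · rw [if_neg hr, zero_add]
    split_ifs with h5
    · obtain ⟨hm0, h5⟩ := h5
      refine Nat.succ_le_of_lt ((Polynomial.rootMultiplicity_pos hb0).2 ?_)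
      have hm : n + 2 ≤ m := by
        by_contra h6
        have h7 : m = n ∨ m = n + 1 := by omega
        rcases h7 with h7 | h7
        · exact hr0 h7 (by rw [h5, h7])
        · apply hr
          rw [h5, h7]
          push_cast
          have h8 : (n : ℝ) + 1 ≠ 0 := by positivity
          rw [div_self h8]
      have h9 := h3 hm
      rw [IsRoot.def, h5]
      push_cast
      rw [← neg_div]
      exact h9
    · exact Nat.zero_le _

/-- **The orders of the poles are at most the multiplicities of the roots**, `n ≤ m`. -/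
theorem order_le (q : ℕ) [Fact q.Prime] (m n : ℕ) (h : n ≤ m) (g : ℂ → ℂ)
    (hg : MeromorphicOn g Set.univ)
    (hz : ∀ s : ℝ, 0 < s → g s = igusaZeta q (RS m n) s) (s0 : ℂ)
    (hs0 : m = n → s0.re ≠ -(((n : ℝ) + 1) / n)) (b : ℂ[X]) (hb0 : b ≠ 0)
    (hb : IsBFunction (RSC m n) b) :
    ((-(b.rootMultiplicity ((s0.re : ℝ) : ℂ) : ℤ) : ℤ) : WithTop ℤ) ≤
      meromorphicOrderAt g s0 := by
  refine le_trans ?_ (igusa_polesR q m n (by omega) g hg hz s0)
  rw [WithTop.coe_le_coe, neg_le_neg_iff]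
  have hCH := Pool.Agent.K1H74.RS.t_CH Pool.Agent.K1H63.RS.t_NC
  exact_mod_cast card_le m n h s0.re hs0 b hb0 (hCH n m (by omega) b hb)
    (fun hm => hCH m n (by omega) b (Pool.Agent.K1H14.RS.t_SW m n b hb))
    (fun hm => Pool.Agent.K1H68.RS.t_ROOT Pool.Agent.K1H74.RS.t_SPEC Pool.Agent.K1H68.RS.t_DIR m n
      hm b hb)

/-- **The orders of the poles are at most the multiplicities of the roots.** -/
theorem order_le' (q : ℕ) [Fact q.Prime] (m n : ℕ) (g : ℂ → ℂ)
    (hg : MeromorphicOn g Set.univ)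
    (hz : ∀ s : ℝ, 0 < s → g s = igusaZeta q (RS m n) s) (s0 : ℂ)
    (hs0 : m = n → s0.re ≠ -(((n : ℝ) + 1) / n)) (b : ℂ[X]) (hb0 : b ≠ 0)
    (hb : IsBFunction (RSC m n) b) :
    ((-(b.rootMultiplicity ((s0.re : ℝ) : ℂ) : ℤ) : ℤ) : WithTop ℤ) ≤
      meromorphicOrderAt g s0 := by
  rcases le_total n m with h | h
  · exact order_le q m n h g hg hz s0 hs0 b hb0 hb
  · refine order_le q n m h g hg (fun s hs => ?_) s0 (fun h' => ?_) b hb0
      (Pool.Agent.K1H14.RS.t_SW m n b hb)
    · rw [hz s hs, igusa_symmR]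
    · subst h'
      exact hs0 rfl

end Pool.Agent.K1H20.RS
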