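import Pool.Agent.K1H1.RS.USur
import Pool.Agent.TH192.PA.Final

set_option autoImplicit false
set_option linter.unusedSectionVars false
set_option linter.dupNamespace false

/-! # The `p`-adic integral of the resultant -/

namespace Pool.Agent.K1H20.RS

open Pool.Agent.W427.SMC Pool.Agent.TH192.PA MeasureTheory Pool.Agent.K1H1.RS
open scoped NNReal ENNReal

attribute [local instance] msZ bsZ

section alg

variable {R : Type*} [CommRing R]

theorem pl_coeff' {k : ℕ} (a : Fin k → R) (j : ℕ) :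
    (pl a).coeff j = if h : j < k then a ⟨j, h⟩ else 0 := by
  split_ifs with h
  · exact coeff_pl a ⟨j, h⟩
  · exact (Polynomial.degree_lt_iff_coeff_zero _ _).1 (degree_pl_lt a) j (not_lt.1 h)

theorem pl_add {k : ℕ} (a b : Fin k → R) : pl (a + b) = pl a + pl b := by
  ext j
  rw [Polynomial.coeff_add, pl_coeff', pl_coeff', pl_coeff']
  split_ifs with h
  · rfl
  · rw [add_zero]

theorem pl_smul {k : ℕ} (r : R) (a : Fin k → R) : pl (fun i => r * a i) = Polynomial.C r * pl a := by
  ext j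
  rw [Polynomial.coeff_C_mul, pl_coeff', pl_coeff']
  split_ifs with h
  · rfl
  · rw [mul_zero]

/-- multiplicativity of the resultant with formal degrees -/
theorem res_mul (u f g : Polynomial R) (k m n : ℕ) (hu : u.natDegree ≤ k) (hf : f.natDegree ≤ m)
    (hg : g.natDegree ≤ n) : Polynomial.resultant (u * f) g (k + m) n =
      Polynomial.resultant u g k n * Polynomial.resultant f g m n := by
  obtain ⟨a, ha⟩ := Nat.exists_eq_add_of_le hu
  obtain ⟨b, hb⟩ := Nat.exists_eq_add_of_le hf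
  have h1 : k + m = u.natDegree + f.natDegree + (a + b) := by omega
  rw [h1, Polynomial.resultant_add_left_deg _ _ _ _ _ Polynomial.natDegree_mul_le,
    Polynomial.resultant_mul_left _ _ _ _ hg]
  conv_rhs => rw [ha, hb, Polynomial.resultant_add_left_deg _ _ _ _ _ le_rfl,
    Polynomial.resultant_add_left_deg _ _ _ _ _ le_rfl]
  rw [mul_add, pow_add, pow_add]
  ring

/-- the resultant of `u f + g a` -/
theorem res_comb (u f g a : Polynomial R) (k m n : ℕ) (hu : u.natDegree ≤ k) (hf : f.natDegree ≤ m)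
    (hg : g.natDegree ≤ n) (ha : a.natDegree + n ≤ m + k) :
    Polynomial.resultant (u * f + g * a) g (m + k) n =
      Polynomial.resultant u g k n * Polynomial.resultant f g m n := by
  rw [Polynomial.resultant_add_mul_left _ _ _ _ _ ha hg, add_comm m k, res_mul u f g k m n hu hf hg]

end alg

variable (p : ℕ) [Fact p.Prime]

theorem rs_cont (m n : ℕ) : Continuous fun z : Co m n → ℤ_[p] => rs m n z := by
  have : (fun z : Co m n → ℤ_[p] => rs m n z) =
      fun z => MvPolynomial.eval z (MvPolynomial.map (Int.castRingHom ℤ_[p]) (RS m n)) := by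
    funext z
    rw [← aeval_RS, MvPolynomial.aeval_def, MvPolynomial.eval_map]
    rfl
  rw [this]
  exact MvPolynomial.continuous_eval _

theorem taurs_meas (m n : ℕ) (s : ℝ) :
    Measurable fun z : Co m n → ℤ_[p] => tau p s (rs m n z) :=
  (tau_meas p s).comp (rs_cont p m n).measurable

/-- the integral -/
noncomputable def AA (m n : ℕ) (s : ℝ) : ℝ≥0∞ := ∫⁻ z, tau p s (rs m n z) ∂(hm p (Co m n))

/-- the integral over the first polynomial -/
noncomputable def EE (m n : ℕ) (s : ℝ) (g : Fin (n + 1) → ℤ_[p]) : ℝ≥0∞ :=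
  ∫⁻ f, tau p s (rs m n (Sum.elim f g)) ∂(hm p (Fin (m + 1)))

theorem AA_EE (m n : ℕ) (s : ℝ) : AA p m n s = ∫⁻ g, EE p m n s g ∂(hm p (Fin (n + 1))) :=
  lintegral_sum p _ (taurs_meas p m n s)

theorem EE_meas (m n : ℕ) (s : ℝ) : Measurable (EE p m n s) := by
  unfold EE
  have h1 : Measurable (fun x : (Fin (n + 1) → ℤ_[p]) × (Fin (m + 1) → ℤ_[p]) =>
      tau p s (rs m n (Sum.elim x.2 x.1))) := by
    refine (taurs_meas p m n s).comp (Continuous.measurable ?_)
    refine continuous_pi fun i => ?_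
    rcases i with i | i
    · exact (continuous_apply i).comp continuous_snd
    · exact (continuous_apply i).comp continuous_fst
  exact h1.lintegral_prod_right'

theorem rs_elim (m n : ℕ) (f : Fin (m + 1) → ℤ_[p]) (g : Fin (n + 1) → ℤ_[p]) :
    rs m n (Sum.elim f g) = Polynomial.resultant (pl f) (pl g) m n := rfl

/-- multiplication of `g` by `p` -/
theorem EE_smul (m n : ℕ) (s : ℝ) (g : Fin (n + 1) → ℤ_[p]) :
    EE p m n s (fun i => (p : ℤ_[p]) * g i) = Tt p s ^ m * EE p m n s g := by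
  unfold EE
  rw [← lintegral_const_mul]
  · refine lintegral_congr fun f => ?_
    rw [rs_elim, rs_elim, pl_smul, Polynomial.resultant_C_mul_right, tau_mul, tau_pow, tau_p]
  · refine (taurs_meas p m n s).comp (Continuous.measurable ?_)
    refine continuous_pi fun i => ?_
    rcases i with i | i
    · exact continuous_apply i
    · exact continuous_const

/-- the part with primitive `g` -/
noncomputable def UU (m n : ℕ) (s : ℝ) : ℝ≥0∞ :=
  ∑ w ∈ (Finset.univ : Finset (Fin (n + 1) → ZMod p)).erase 0,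
    ((p : ℝ≥0∞)⁻¹) ^ (n + 1) *
      ∫⁻ z, EE p m n s (fun i => ((w i).val : ℤ_[p]) + (p : ℤ_[p]) * z i) ∂(hm p (Fin (n + 1)))

theorem AA_eq (m n : ℕ) (s : ℝ) :
    AA p m n s = UU p m n s + ((p : ℝ≥0∞)⁻¹) ^ (n + 1) * (Tt p s ^ m * AA p m n s) := by
  have h0 : AA p m n s = smV p (EE p m n s) := by
    rw [AA_EE, lintegral_smV p _ (EE_meas p m n s)]
  conv_lhs => rw [h0]
  unfold smV
  rw [← Finset.sum_erase_add _ _ (Finset.mem_univ (0 : Fin (n + 1) → ZMod p))]
  simp only [Fintype.card_fin]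
  unfold UU
  congr 1
  congr 1
  rw [AA_EE, ← lintegral_const_mul _ (EE_meas p m n s)]
  refine lintegral_congr fun z => ?_
  rw [← EE_smul]
  congr 1
  funext i
  simp

/-- the integral for a primitive `g` does not depend on the degree of the first polynomial -/
theorem EE_prim (m n k : ℕ) (s : ℝ) (g : Fin (n + 1) → ℤ_[p]) (hg : ∃ j, IsUnit (g j))
    (hnm : n ≤ m + 1) (hnk : n < k) : EE p (m + k) n s g = EE p m n s g := by
  obtain ⟨u, hu⟩ := t_U p n k g hg hnk
  choose f a hfa using fun F => t_SUR p n k m g u hu (by omega) hnm F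
  set Φ : (Fin (m + 1) ⊕ Fin (m + k + 1 - n) → ℤ_[p]) → (Fin (m + k + 1) → ℤ_[p]) :=
    fun z i => (pl u * pl (fun i => z (Sum.inl i)) + pl g * pl (fun i => z (Sum.inr i))).coeff i
    with hΦ
  set h : (Fin (m + k + 1) → ℤ_[p]) → (Fin (m + 1) ⊕ Fin (m + k + 1 - n) → ℤ_[p]) :=
    fun F => Sum.elim (f F) (a F) with hh
  have hpl : ∀ {K : ℕ} (i : ℕ), Continuous fun z : Fin K → ℤ_[p] => (pl z).coeff i := by
    intro K i
    simp only [pl_coeff']
    split_ifs with hi
    · exact continuous_apply _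
    · exact continuous_const
  have hc : Continuous Φ := by
    refine continuous_pi fun i => ?_
    rw [hΦ]
    simp only [Polynomial.coeff_add, Polynomial.coeff_mul]
    refine Continuous.add ?_ ?_
    · refine continuous_finsetSum _ fun x _ => continuous_const.mul ?_
      exact (hpl x.2).comp (continuous_pi fun j => continuous_apply _)
    · refine continuous_finsetSum _ fun x _ => continuous_const.mul ?_
      exact (hpl x.2).comp (continuous_pi fun j => continuous_apply _)
  have hΦadd : ∀ z z', Φ (z + z') = Φ z + Φ z' := by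
    intro z z'
    funext i
    rw [hΦ]
    simp only [Pi.add_apply]
    have h1 : (pl fun i : Fin (m + 1) => z (Sum.inl i) + z' (Sum.inl i)) =
        pl (fun i => z (Sum.inl i)) + pl (fun i => z' (Sum.inl i)) := pl_add _ _
    have h2 : (pl fun i : Fin (m + k + 1 - n) => z (Sum.inr i) + z' (Sum.inr i)) =
        pl (fun i => z (Sum.inr i)) + pl (fun i => z' (Sum.inr i)) := pl_add _ _
    rw [h1, h2, ← Polynomial.coeff_add]
    congr 1
    ring
  have hΦh : ∀ F, Φ (h F) = F := by
    intro F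
    funext i
    rw [hΦ, hh]
    simp only [Sum.elim_inl, Sum.elim_inr]
    rw [← hfa F, coeff_pl]
  have he : ∀ z y, Φ (h y + z) = y + Φ z := fun z y => by rw [hΦadd, hΦh]
  have hdeg : ∀ z : Fin (m + 1) ⊕ Fin (m + k + 1 - n) → ℤ_[p],
      (pl (Φ z)) = pl u * pl (fun i => z (Sum.inl i)) + pl g * pl (fun i => z (Sum.inr i)) := by
    intro z
    refine (eq_pl _ ?_).symm
    refine (Polynomial.degree_add_le _ _).trans_lt (max_lt ?_ ?_)
    · refine lt_of_le_of_lt (Polynomial.degree_le_natDegree) ?_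
      have h1 := Polynomial.natDegree_mul_le (p := pl u) (q := pl fun i : Fin (m + 1) => z (Sum.inl i))
      have h2 := natDegree_pl_le u
      have h3 := natDegree_pl_le fun i : Fin (m + 1) => z (Sum.inl i)
      exact_mod_cast (by omega : (pl u * pl fun i : Fin (m + 1) => z (Sum.inl i)).natDegree <
        m + k + 1)
    · refine lt_of_le_of_lt (Polynomial.degree_mul_le _ _) ?_
      have h2 := natDegree_pl_le g
      have h3 := degree_pl_lt fun i : Fin (m + k + 1 - n) => z (Sum.inr i)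
      rcases eq_or_ne (pl fun i : Fin (m + k + 1 - n) => z (Sum.inr i)) 0 with h0 | h0
      · rw [h0, Polynomial.degree_zero]
        simp
      · rw [Polynomial.degree_eq_natDegree h0] at h3 ⊢
        have h4 : (pl fun i : Fin (m + k + 1 - n) => z (Sum.inr i)).natDegree < m + k + 1 - n := by
          exact_mod_cast h3
        refine lt_of_le_of_lt (add_le_add_left (Polynomial.degree_le_natDegree) _) ?_
        exact_mod_cast (by omega : (pl g).natDegree +
          (pl fun i : Fin (m + k + 1 - n) => z (Sum.inr i)).natDegree < m + k + 1)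
  have hmeas : ∀ M, Measurable fun F : Fin (M + 1) → ℤ_[p] => tau p s (rs M n (Sum.elim F g)) := by
    intro M
    refine (taurs_meas p M n s).comp (Continuous.measurable ?_)
    refine continuous_pi fun i => ?_
    rcases i with i | i
    · exact continuous_apply i
    · exact continuous_const
  unfold EE
  rw [← lintegral_equivariant p Φ h hc.measurable he _ (hmeas (m + k))]
  have h1 : ∀ z : Fin (m + 1) ⊕ Fin (m + k + 1 - n) → ℤ_[p],
      tau p s (rs (m + k) n (Sum.elim (Φ z) g)) =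
        tau p s (rs m n (Sum.elim (fun i => z (Sum.inl i)) g)) := by
    intro z
    rw [rs_elim, rs_elim, hdeg, res_comb _ _ _ _ k m n (natDegree_pl_le u) (natDegree_pl_le _)
      (natDegree_pl_le g), tau_mul, tau_unit p s _ (PadicInt.isUnit_iff.1 hu), one_mul]
    have h3 : (pl fun i : Fin (m + k + 1 - n) => z (Sum.inr i)).natDegree ≤ m + k - n := by
      refine Polynomial.natDegree_le_iff_degree_le.2 ?_
      have h4 := degree_pl_lt fun i : Fin (m + k + 1 - n) => z (Sum.inr i)
      have h5 : m + k + 1 - n = (m + k - n) + 1 := by omega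
      rw [Polynomial.degree_le_iff_coeff_zero]
      intro N hN
      rw [Polynomial.degree_lt_iff_coeff_zero] at h4
      refine h4 N ?_
      have h6 : m + k - n < N := by exact_mod_cast hN
      omega
    omega
  simp only [h1]
  rw [lintegral_sum p (fun z : Fin (m + 1) ⊕ Fin (m + k + 1 - n) → ℤ_[p] =>
    tau p s (rs m n (Sum.elim (fun i => z (Sum.inl i)) g)))]
  · simp
  · exact (hmeas m).comp (Continuous.measurable (continuous_pi fun i => continuous_apply _))

theorem UU_eq (m n k : ℕ) (s : ℝ) (hnm : n ≤ m + 1) (hnk : n < k) :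
    UU p (m + k) n s = UU p m n s := by
  unfold UU
  refine Finset.sum_congr rfl fun w hw => ?_
  congr 1
  refine lintegral_congr fun z => ?_
  refine EE_prim p m n k s _ ?_ hnm hnk
  have h1 : w ≠ 0 := Finset.ne_of_mem_erase hw
  obtain ⟨j, hj⟩ := Function.ne_iff.1 h1
  refine ⟨j, ?_⟩
  have hp : NeZero p := ⟨(Fact.out : p.Prime).ne_zero⟩
  rw [← IsLocalRing.notMem_maximalIdeal, ← PadicInt.ker_toZMod, RingHom.mem_ker, map_add, map_mul,
    map_natCast, map_natCast, ZMod.natCast_zmod_val, CharP.cast_eq_zero, zero_mul, add_zero]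
  exact hj

theorem UU_eq' (m m' n : ℕ) (s : ℝ) (h : n ≤ m + 1) (h' : n ≤ m' + 1) :
    UU p m n s = UU p m' n s := by
  rw [← UU_eq p m n (n + 1 + m') s h (by omega), ← UU_eq p m' n (n + 1 + m) s h' (by omega)]
  congr 1
  omega

theorem AA_symm (m n : ℕ) (s : ℝ) : AA p m n s = AA p n m s := by
  unfold AA
  rw [← lintegral_equivariant p (fun (z : Co m n → ℤ_[p]) (i : Co n m) => z i.swap)
    (fun y i => y i.swap) (Continuous.measurable (continuous_pi fun i => continuous_apply _)) ?_ _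
    (taurs_meas p n m s)]
  · refine lintegral_congr fun z => ?_
    unfold rs
    simp only [Sum.swap_inl, Sum.swap_inr]
    rw [Polynomial.resultant_comm, tau_mul, tau_unit, one_mul]
    rw [norm_pow, norm_neg, norm_one, one_pow]
  · intro z y
    funext i
    simp

theorem AA_zero (s : ℝ) : AA p 0 0 s = 1 := by
  unfold AA rs
  simp [tau_one]

theorem AA_le (m n : ℕ) (s : ℝ) (hs : 0 ≤ s) : AA p m n s ≤ 1 := by
  unfold AA
  refine (lintegral_mono fun z => tau_le_one p s hs _).trans ?_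
  rw [lintegral_one, measure_univ]

section real

variable (s : ℝ) (hs : 0 ≤ s)

include hs

theorem AA_top (m n : ℕ) : AA p m n s ≠ ⊤ := ne_top_of_le_ne_top ENNReal.one_ne_top
  (AA_le p m n s hs)

theorem UU_top (m n : ℕ) : UU p m n s ≠ ⊤ := by
  refine ne_top_of_le_ne_top (AA_top p s hs m n) ?_
  conv_rhs => rw [AA_eq]
  exact le_self_add

theorem real_eq (m n : ℕ) : (AA p m n s).toReal * (1 - ((p : ℝ)⁻¹) ^ (n + 1) * tr' p s ^ m) =
    (UU p m n s).toReal := by
  have h1 := congrArg ENNReal.toReal (AA_eq p m n s)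
  have h2 : ((p : ℝ≥0∞)⁻¹) ^ (n + 1) * (Tt p s ^ m * AA p m n s) ≠ ⊤ := by
    refine ne_top_of_le_ne_top (AA_top p s hs m n) ?_
    conv_rhs => rw [AA_eq]
    exact le_add_self
  rw [ENNReal.toReal_add (UU_top p s hs m n) h2, ENNReal.toReal_mul, ENNReal.toReal_mul,
    ENNReal.toReal_pow, ENNReal.toReal_pow, Tt_toReal, ENNReal.toReal_inv,
    ENNReal.toReal_natCast] at h1
  linear_combination h1

theorem UU_zero : (UU p 0 0 s).toReal = 1 - (p : ℝ)⁻¹ := by
  rw [← real_eq p s hs, AA_zero]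
  simp

/-- the recursion -/
theorem UU_rec (n : ℕ) :
    (UU p (n + 1) (n + 1) s).toReal * (1 - ((p : ℝ)⁻¹) ^ (n + 1) * tr' p s ^ (n + 1)) =
      (UU p n n s).toReal * (1 - ((p : ℝ)⁻¹) ^ (n + 2) * tr' p s ^ n) := by
  rw [UU_eq' p (n + 1) n (n + 1) s (by omega) (by omega),
    UU_eq' p n (n + 1) n s (by omega) (by omega), ← real_eq p s hs, ← real_eq p s hs,
    AA_symm p (n + 1) n s]
  ring

theorem UU_form (n : ℕ) :
    (UU p n n s).toReal * ∏ j ∈ Finset.range n, (1 - ((p : ℝ)⁻¹) ^ (j + 1) * tr' p s ^ (j + 1)) =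
      (1 - (p : ℝ)⁻¹) * ∏ j ∈ Finset.range n, (1 - ((p : ℝ)⁻¹) ^ (j + 2) * tr' p s ^ j) := by
  induction n with
  | zero => simp [UU_zero p s hs]
  | succ n ih =>
    rw [Finset.prod_range_succ, Finset.prod_range_succ]
    have h := UU_rec p s hs n
    linear_combination (∏ j ∈ Finset.range n, (1 - ((p : ℝ)⁻¹) ^ (j + 1) * tr' p s ^ (j + 1))) * h +
      (1 - ((p : ℝ)⁻¹) ^ (n + 2) * tr' p s ^ n) * ih

/-- **The formula for the integral.** -/
theorem AA_form (m n : ℕ) (h : n ≤ m + 1) :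
    (AA p m n s).toReal * ((∏ j ∈ Finset.range n, (1 - ((p : ℝ)⁻¹) ^ (j + 1) * tr' p s ^ (j + 1))) *
      (1 - ((p : ℝ)⁻¹) ^ (n + 1) * tr' p s ^ m)) =
      (1 - (p : ℝ)⁻¹) * ∏ j ∈ Finset.range n, (1 - ((p : ℝ)⁻¹) ^ (j + 2) * tr' p s ^ j) := by
  rw [← UU_form p s hs n, UU_eq' p n m n s (by omega) h, ← real_eq p s hs m n]
  ring

end real

/-! ## The denominator of the zeta function -/

/-- the numbers `ν` -/
def nuR (n : ℕ) : Fin n ⊕ Unit → ℕ := Sum.elim (fun j => j + 1) (fun _ => n + 1)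

/-- the numbers `N` -/
def NR (m n : ℕ) : Fin n ⊕ Unit → ℕ := Sum.elim (fun j => j + 1) (fun _ => m)

theorem nuR_pos (n : ℕ) (i : Fin n ⊕ Unit) : 0 < nuR n i := by
  rcases i with i | i <;> simp [nuR]

/-- the integral is a rational function of `p ^ (-s)` -/
theorem form_rat (m n : ℕ) (h : n ≤ m + 1) :
    ∃ P : Polynomial ℂ, ∀ s : ℝ, 0 ≤ s → (Rc p (nuR n) (NR m n)).eval (tr' p s : ℂ) *
      ((AA p m n s).toReal : ℂ) = P.eval (tr' p s : ℂ) := by
  have hp0 : (p : ℂ) ≠ 0 := by exact_mod_cast (Fact.out : p.Prime).ne_zero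
  refine ⟨Polynomial.C ((∏ j : Fin n, (p : ℂ) ^ ((j : ℕ) + 1)) * (p : ℂ) ^ (n + 1) *
      (1 - (p : ℂ)⁻¹)) * ∏ j ∈ Finset.range n,
        (1 - Polynomial.C (((p : ℂ)⁻¹) ^ (j + 2)) * Polynomial.X ^ j), fun s hs => ?_⟩
  have h1 := congrArg (fun r : ℝ => (r : ℂ)) (AA_form p s hs m n h)
  push_cast at h1
  unfold Rc
  rw [Fintype.prod_sum_type, Polynomial.eval_mul, Polynomial.eval_prod, Polynomial.eval_prod,
    Polynomial.eval_mul, Polynomial.eval_C, Polynomial.eval_prod]
  simp only [nuR, NR, Sum.elim_inl, Sum.elim_inr, Polynomial.eval_sub, Polynomial.eval_C,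
    Polynomial.eval_pow, Polynomial.eval_X, Finset.univ_unique, Finset.prod_singleton,
    Polynomial.eval_mul, Polynomial.eval_one, Nat.cast_pow]
  rw [mul_assoc, mul_assoc, mul_assoc, ← h1]
  have h3 : ∏ j : Fin n, ((p : ℂ) ^ ((j : ℕ) + 1) - (tr' p s : ℂ) ^ ((j : ℕ) + 1)) =
      (∏ j : Fin n, (p : ℂ) ^ ((j : ℕ) + 1)) *
        ∏ j ∈ Finset.range n, (1 - ((p : ℂ)⁻¹) ^ (j + 1) * (tr' p s : ℂ) ^ (j + 1)) := by
    rw [Finset.prod_range, ← Finset.prod_mul_distrib]
    refine Finset.prod_congr rfl fun j _ => ?_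
    have : (p : ℂ) ^ ((j : ℕ) + 1) ≠ 0 := pow_ne_zero _ hp0
    rw [inv_pow]
    field_simp
  have h4 : (p : ℂ) ^ (n + 1) - (tr' p s : ℂ) ^ m =
      (p : ℂ) ^ (n + 1) * (1 - ((p : ℂ)⁻¹) ^ (n + 1) * (tr' p s : ℂ) ^ m) := by
    have : (p : ℂ) ^ (n + 1) ≠ 0 := pow_ne_zero _ hp0
    rw [inv_pow]
    field_simp
  rw [h3, h4]
  ring

/-- **Rationality of the zeta function.** -/
theorem igusa_ratR (m n : ℕ) (h : n ≤ m + 1) :
    ∃ P : Polynomial ℂ, ∀ s : ℝ, 0 < s → (Rc p (nuR n) (NR m n)).eval (pw p s) *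
      igusaZeta p (RS m n) s = P.eval (pw p s) := by
  obtain ⟨P, hP⟩ := form_rat p m n h
  refine ⟨P, fun s hs => ?_⟩
  have h2 : igusaZeta p (RS m n) s = ((AA p m n s).toReal : ℂ) := by
    rw [hm_igusa]
    unfold AA
    simp only [aeval_RS]
  rw [h2, pw_real]
  exact hP s hs.le

/-- the zeta functions of the resultants of degrees `m, n` and `n, m` agree -/
theorem igusa_symmR (m n : ℕ) (s : ℝ) : igusaZeta p (RS m n) s = igusaZeta p (RS n m) s := by
  have h : ∀ m n : ℕ, igusaZeta p (RS m n) s = ((AA p m n s).toReal : ℂ) := by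
    intro m n
    rw [hm_igusa]
    unfold AA
    simp only [aeval_RS]
  rw [h, h, AA_symm]

/-- **The poles of the zeta function of the resultant.** -/
theorem igusa_polesR (m n : ℕ) (h : n ≤ m + 1) (g : ℂ → ℂ) (hg : MeromorphicOn g Set.univ)
    (hz : ∀ s : ℝ, 0 < s → g s = igusaZeta p (RS m n) s) (s0 : ℂ) :
    ((-(Nat.card {i // 0 < NR m n i ∧ s0.re = -((nuR n i : ℝ) / NR m n i)} : ℤ) : ℤ) :
      WithTop ℤ) ≤ meromorphicOrderAt g s0 := by
  obtain ⟨P, hP⟩ := igusa_ratR p m n h
  have hp1 : 1 < p := (Fact.out : p.Prime).one_lt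
  have h1 := mero_bound p (Rc p (nuR n) (NR m n)) P (Rc_ne p hp1 _ _ (nuR_pos n)) g hg
    (fun s hs => by rw [hz s hs]; exact hP s hs) s0
  refine le_trans ?_ h1
  rw [WithTop.coe_le_coe, neg_le_neg_iff]
  have h2 := Rc_rm p hp1 (nuR n) (NR m n) (nuR_pos n) (pw p s0)
  rw [pw_norm] at h2
  exact_mod_cast h2

end Pool.Agent.K1H20.RS
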