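import Pool.Agent.Y229.GL.Chg
import Mathlib.RingTheory.Polynomial.Resultant.Basic
import Mathlib.NumberTheory.Padics.RingHoms

/-! # The strong monodromy conjecture for resultants: definitions and pieces

Owner helper20.  `R_{m,n}(f, g)` is the resultant of two polynomials of degrees `m`, `n` with variable
coefficients.  Goal: for `n < m` and every prime `q`, with `t = q ^ (-s)`,

`Z(s) = (1 - q⁻¹) ∏_{j=1}^n (1 - q^(-j-1) t^(j-1)) / (1 - q^(-j) t^j) / (1 - q^(-n-1) t^m)`,

and every `b` with a functional equation of `R_{m,n}` is divisible by `(s + 1) ^ n` and has the root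
`-(n + 1) / m`, with the total multiplicity `n + 1` if `m = n + 1`.
-/

set_option autoImplicit false
set_option linter.dupNamespace false

namespace Pool.Agent.K1H20.RS

open MvPolynomial Pool.Agent.H628R4.TP

/-- the coefficients of two polynomials of degrees `m`, `n` -/
abbrev Co (m n : ℕ) := Fin (m + 1) ⊕ Fin (n + 1)

/-- the polynomial `∑ a_i T ^ i` -/
noncomputable def pl {R : Type*} [CommRing R] {k : ℕ} (a : Fin k → R) : Polynomial R :=
  ∑ i, Polynomial.C (a i) * Polynomial.X ^ (i : ℕ)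

/-- the resultant (Sylvester determinant) of `∑_{i ≤ m} z (inl i) T ^ i` and
`∑_{j ≤ n} z (inr j) T ^ j`, as polynomials of degrees `m`, `n` -/
noncomputable def rs {R : Type*} [CommRing R] (m n : ℕ) (z : Co m n → R) : R :=
  Polynomial.resultant (pl fun i : Fin (m + 1) => z (Sum.inl i))
    (pl fun j : Fin (n + 1) => z (Sum.inr j)) m n

/-- the resultant as a polynomial in the coefficients -/
noncomputable def RS (m n : ℕ) : MvPolynomial (Co m n) ℤ := rs m n X

/-- the resultant with complex coefficients -/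
noncomputable def RSC (m n : ℕ) : MvPolynomial (Co m n) ℂ := map (Int.castRingHom ℂ) (RS m n)

theorem pl_map {R S : Type*} [CommRing R] [CommRing S] (φ : R →+* S) {k : ℕ} (a : Fin k → R) :
    (pl a).map φ = pl fun i => φ (a i) := by
  unfold pl
  rw [Polynomial.map_sum]
  exact Finset.sum_congr rfl fun i _ => by simp

theorem map_rs {R S : Type*} [CommRing R] [CommRing S] (φ : R →+* S) (m n : ℕ) (z : Co m n → R) :
    φ (rs m n z) = rs m n fun i => φ (z i) := by
  unfold rs
  rw [← Polynomial.resultant_map_map, pl_map, pl_map]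

theorem aeval_RS {R : Type*} [CommRing R] (m n : ℕ) (z : Co m n → R) :
    aeval z (RS m n) = rs m n z := by
  have := map_rs (aeval z : MvPolynomial (Co m n) ℤ →ₐ[ℤ] R).toRingHom m n X
  simpa [RS] using this

theorem RSC_eq (m n : ℕ) : RSC m n = rs m n X := by
  have := map_rs (map (Int.castRingHom ℂ) : MvPolynomial (Co m n) ℤ →+* MvPolynomial (Co m n) ℂ) m n X
  simpa [RSC, RS] using this

theorem aeval_RSC {R : Type*} [CommRing R] [Algebra ℂ R] (m n : ℕ) (z : Co m n → R) :
    aeval z (RSC m n) = rs m n z := by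
  rw [RSC_eq]
  have := map_rs (aeval z : MvPolynomial (Co m n) ℂ →ₐ[ℂ] R).toRingHom m n X
  simpa using this

/-! ## The functional equation -/

/-- **Piece NC.** Functional equations of a product of coordinates. -/
def S_NC : Prop := ∀ (N : ℕ) (S : Finset (Fin N)) (b : Polynomial ℂ),
  IsLocalBFunction (∏ i ∈ S, (X i : MvPolynomial (Fin N) ℂ)) b →
    (Polynomial.X + 1) ^ S.card ∣ b

/-- **Piece CH.** Formal coordinates in which the resultant is a product of `k` coordinates. -/
def S_CH : Prop := S_NC → ∀ (k l : ℕ), k ≤ l + 1 → ∀ b : Polynomial ℂ, IsBFunction (RSC l k) b →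
  (Polynomial.X + 1) ^ k ∣ b

/-- **Piece SW.** Exchange of the two polynomials. -/
def S_SW : Prop := ∀ (m n : ℕ) (b : Polynomial ℂ), IsBFunction (RSC m n) b → IsBFunction (RSC n m) b

/-- the specialisation of the variables in `α` -/
noncomputable def sp {α κ : Type} (a : α → ℂ) : MvPolynomial (α ⊕ κ) ℂ →ₐ[ℂ] MvPolynomial κ ℂ :=
  aeval (Sum.elim (fun i => C (a i)) X)

/-- **Piece SPEC.** A functional equation of a form of degree `d` in the variables `κ`, with
parameters `α`, for special values of the parameters and of `s`. -/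
def S_SPEC : Prop := ∀ (α κ : Type) [Fintype α] [Fintype κ] [DecidableEq α] [DecidableEq κ] (d : ℕ)
  (F : MvPolynomial (α ⊕ κ) ℂ), 1 ≤ d →
  IsWeightedHomogeneous (Sum.elim (fun _ => 0) (fun _ => 1) : α ⊕ κ → ℕ) F d →
  ∀ b : Polynomial ℂ, IsBFunction F b → ∀ (a : α → ℂ) (s : ℂ),
  ∃ (N : ℕ) (H : κ → MvPolynomial κ ℂ), (∀ k, (H k).IsHomogeneous (d * N + 1)) ∧
    ∑ k, (sp a F * pderiv k (H k) + C (s - N) * pderiv k (sp a F) * H k) =
      C (b.eval s) * sp a F ^ (N + 1)

/-- `y_0 ⋯ y_n (y_0 + ⋯ + y_n) ^ M` -/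
noncomputable def dir (n M : ℕ) : MvPolynomial (Fin (n + 1)) ℂ := (∏ i, X i) * (∑ i, X i) ^ M

/-- **Piece DIR.** The twisted form is not a divergence. -/
def S_DIR : Prop := ∀ (n M N : ℕ) (β : ℂ) (H : Fin (n + 1) → MvPolynomial (Fin (n + 1)) ℂ), 1 ≤ M →
  (∀ k, (H k).IsHomogeneous ((n + 1 + M) * N + 1)) →
  ∑ k, (dir n M * pderiv k (H k) +
    C (-((n : ℂ) + 1) / ((n : ℂ) + 1 + M) - N) * pderiv k (dir n M) * H k) =
      C β * dir n M ^ (N + 1) → β = 0

/-- **Piece ROOT.** The root `-(n + 1) / m`. -/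
def S_ROOT : Prop := S_SPEC → S_DIR → ∀ (m n : ℕ), n + 2 ≤ m → ∀ b : Polynomial ℂ,
  IsBFunction (RSC m n) b → b.eval (-((n : ℂ) + 1) / m) = 0

/-! ## Algebra over the `p`-adic integers -/

/-- **Piece U.** A polynomial of degree `k` prime to a primitive polynomial modulo `p`. -/
def S_U : Prop := ∀ (p : ℕ) [Fact p.Prime] (n k : ℕ) (g : Fin (n + 1) → ℤ_[p]),
  (∃ j, IsUnit (g j)) → n < k →
    ∃ u : Fin (k + 1) → ℤ_[p], IsUnit (Polynomial.resultant (pl u) (pl g) k n)

/-- **Piece SUR.** Combinations of `u` and `g`. -/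
def S_SUR : Prop := ∀ (p : ℕ) [Fact p.Prime] (n k m : ℕ) (g : Fin (n + 1) → ℤ_[p])
  (u : Fin (k + 1) → ℤ_[p]), IsUnit (Polynomial.resultant (pl u) (pl g) k n) → 1 ≤ k → n ≤ m + 1 →
    ∀ F : Fin (m + k + 1) → ℤ_[p], ∃ (f : Fin (m + 1) → ℤ_[p]) (a : Fin (m + k + 1 - n) → ℤ_[p]),
      pl F = pl u * pl f + pl g * pl a

end Pool.Agent.K1H20.RS
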