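import Pool.Agent.K1H20.RS.TopZ

set_option autoImplicit false
set_option linter.unusedSectionVars false
set_option linter.dupNamespace false

/-! # Uniqueness of the topological zeta function -/

namespace Pool.Agent.K1H20.RS.DV

open IsLocalRing Filter Topology

/-- a polynomial in two variables is determined by its values at `(p, t)`, `p` prime, `0 < t < 1` -/
theorem poly2_zero (F : MvPolynomial (Fin 2) ℤ) (h : ∀ p : ℕ, p.Prime → ∀ s : ℝ, 0 < s →
    MvPolynomial.aeval ![(p : ℝ), (p : ℝ) ^ (-s)] F = 0) : F = 0 := by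
  have h1 : MvPolynomial.map (Int.castRingHom ℝ) F = 0 := by
    refine MvPolynomial.funext_set (![{x : ℝ | ∃ p : ℕ, p.Prime ∧ x = p}, Set.Ioo (0 : ℝ) 1])
      (fun i => ?_) (fun x hx => ?_)
    · fin_cases i
      · have h2 : {x : ℝ | ∃ p : ℕ, p.Prime ∧ x = p} = (fun n : ℕ => (n : ℝ)) '' {p | p.Prime} := by
          ext x
          constructor
          · rintro ⟨p, hp, rfl⟩
            exact ⟨p, hp, rfl⟩
          · rintro ⟨p, hp, rfl⟩
            exact ⟨p, hp, rfl⟩
        simp only [Fin.zero_eta, Matrix.cons_val_zero]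
        rw [h2]
        exact Nat.infinite_setOfPred_prime.image (Nat.cast_injective.injOn)
      · exact Set.Ioo_infinite one_pos
    · obtain ⟨p, hp, hx0⟩ : ∃ p : ℕ, p.Prime ∧ x 0 = p := hx 0 (Set.mem_univ _)
      obtain ⟨h3, h4⟩ : x 1 ∈ Set.Ioo (0 : ℝ) 1 := hx 1 (Set.mem_univ _)
      have hp1 : (1 : ℝ) < p := by exact_mod_cast hp.one_lt
      have hl : 0 < Real.log p := Real.log_pos hp1
      have h5 := h p hp (-Real.log (x 1) / Real.log p) (div_pos (neg_pos.2 (Real.log_neg h3 h4)) hl)
      have h6 : (p : ℝ) ^ (-(-Real.log (x 1) / Real.log p)) = x 1 := by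
        rw [Real.rpow_def_of_pos (by linarith)]
        have : Real.log p * -(-Real.log (x 1) / Real.log p) = Real.log (x 1) := by
          field_simp
        rw [this, Real.exp_log h3]
      rw [h6] at h5
      have h7 : ![(p : ℝ), x 1] = x := by
        funext i
        fin_cases i
        · simp [hx0]
        · rfl
      rw [h7] at h5
      rw [map_zero, MvPolynomial.eval_map]
      exact h5
  exact (map_eq_zero_iff _ (MvPolynomial.map_injective _ (RingHom.injective_int _))).1 h1

/-- **Uniqueness of the topological zeta function.** -/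
theorem IsTopZeta.unique {V : Type} [Fintype V] {f : MvPolynomial V ℤ} {P Q P' Q' : Polynomial ℤ}
    (h : IsTopZeta f P Q) (h' : IsTopZeta f P' Q') : P * Q' = P' * Q := by
  obtain ⟨A, B, hB, hZ, hl⟩ := h.formula
  obtain ⟨A', B', hB', hZ', hl'⟩ := h'.formula
  have h1 : A * B' - A' * B = 0 := by
    refine poly2_zero _ fun p hp s hs => ?_
    have : Fact p.Prime := ⟨hp⟩
    have hp1 : (1 : ℝ) < p := by exact_mod_cast hp.one_lt
    have : Finite (ResidueField ℤ_[p]) := by
      have : NeZero p := ⟨hp.ne_zero⟩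
      exact Finite.of_equiv (ZMod p) (PadicInt.residueField (p := p)).symm.toEquiv
    have hc : (p : ℝ) = Nat.card (ResidueField ℤ_[p]) := by
      rw [Nat.card_congr (PadicInt.residueField (p := p)).toEquiv, Nat.card_zmod]
    have h2 := hZ ℤ_[p] p hc s hs
    rw [hZ' ℤ_[p] p hc s hs, div_eq_div_iff (hB' p s hp1 hs) (hB p s hp1 hs)] at h2
    rw [map_sub, map_mul, map_mul, h2, sub_self]
  have h2 : ∀ s : ℝ, 0 < s →
      Polynomial.aeval s P / Polynomial.aeval s Q = Polynomial.aeval s P' / Polynomial.aeval s Q' := by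
    intro s hs
    refine tendsto_nhds_unique (hl s hs) ((hl' s hs).congr' ?_)
    filter_upwards [self_mem_nhdsWithin] with q hq
    have hq1 : (1 : ℝ) < q := hq
    rw [div_eq_div_iff (hB' q s hq1 hs) (hB q s hq1 hs), ← map_mul, ← map_mul, ← sub_eq_zero.1 h1]
  have hinj : Function.Injective (Polynomial.map (Int.castRingHom ℝ)) :=
    Polynomial.map_injective _ (RingHom.injective_int _)
  have hQ : Q.map (Int.castRingHom ℝ) ≠ 0 := fun h0 => h.ne_zero (hinj (by rw [h0, Polynomial.map_zero]))
  have hQ' : Q'.map (Int.castRingHom ℝ) ≠ 0 := fun h0 =>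
    h'.ne_zero (hinj (by rw [h0, Polynomial.map_zero]))
  apply hinj
  rw [← sub_eq_zero, ← Polynomial.map_sub]
  refine Polynomial.eq_zero_of_infinite_isRoot _ (Set.Infinite.mono ?_
    ((Set.Ioi_infinite (0 : ℝ)).sdiff (((Q.map (Int.castRingHom ℝ)).roots.toFinset ∪
      (Q'.map (Int.castRingHom ℝ)).roots.toFinset).finite_toSet)))
  rintro s ⟨hs, hs2⟩
  have hs' : (0 : ℝ) < s := hs
  have e : ∀ R : Polynomial ℤ, (R.map (Int.castRingHom ℝ)).eval s = Polynomial.aeval s R := by
    intro R
    rw [Polynomial.eval_map]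
    rfl
  simp only [Finset.coe_union, Set.mem_union, Finset.mem_coe, Multiset.mem_toFinset, not_or,
    Polynomial.mem_roots hQ, Polynomial.mem_roots hQ', Polynomial.IsRoot.def, e] at hs2
  have h3 := h2 s hs'
  rw [div_eq_div_iff hs2.1 hs2.2] at h3
  change Polynomial.IsRoot _ s
  rw [Polynomial.IsRoot.def, e, map_sub, map_mul, map_mul, h3, sub_self]

end Pool.Agent.K1H20.RS.DV
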