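import Pool.Agent.K1H20.RS.DRes
import Pool.Agent.K1H20.RS.Fin

set_option autoImplicit false
set_option linter.unusedSectionVars false
set_option linter.dupNamespace false

/-! # The topological zeta function of the resultant -/

namespace Pool.Agent.K1H20.RS.DV

open MeasureTheory IsLocalRing Filter Topology

/-- The integral of `|f| ^ s` over `O ^ V`, `O` a compact discrete valuation ring with finite residue
field, for the Haar measure of total mass `1`. -/
noncomputable def zetaO (O : Type) [CommRing O] [IsDomain O] [IsDiscreteValuationRing O]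
    [TopologicalSpace O] [IsTopologicalRing O] [CompactSpace O] {V : Type} [Fintype V]
    (f : MvPolynomial V ℤ) (s : ℝ) : ℝ :=
  letI : MeasurableSpace O := borel O
  haveI : BorelSpace O := ⟨rfl⟩
  (∫⁻ z : V → O, ENNReal.ofReal (av (MvPolynomial.aeval z f) ^ s)
    ∂(Measure.pi fun _ : V => Measure.addHaarMeasure (⊤ : TopologicalSpace.PositiveCompacts O))).toReal

/-- `P / Q` is the topological zeta function of `f`, in the sense of the limit formula of Denef and
Loeser: there is a rational function `A(q, t) / B(q, t)` with integral coefficients which gives the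
zeta functions of `f` over all compact discrete valuation rings, with `q` the number of elements of the
residue field and `t = q ^ (-s)`, and whose limit for `q → 1`, `t = q ^ (-s)`, is `P(s) / Q(s)`. -/
structure IsTopZeta {V : Type} [Fintype V] (f : MvPolynomial V ℤ) (P Q : Polynomial ℤ) : Prop where
  ne_zero : Q ≠ 0
  formula : ∃ A B : MvPolynomial (Fin 2) ℤ,
    (∀ q s : ℝ, 1 < q → 0 < s → MvPolynomial.aeval ![q, q ^ (-s)] B ≠ 0) ∧
    (∀ (O : Type) [CommRing O] [IsDomain O] [IsDiscreteValuationRing O]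
      [TopologicalSpace O] [IsTopologicalRing O] [CompactSpace O] [T2Space O]
      [SecondCountableTopology O] [Finite (ResidueField O)] (q : ℝ),
      q = Nat.card (ResidueField O) → ∀ s : ℝ, 0 < s →
        zetaO O f s = MvPolynomial.aeval ![q, q ^ (-s)] A / MvPolynomial.aeval ![q, q ^ (-s)] B) ∧
    (∀ s : ℝ, 0 < s → Tendsto (fun q : ℝ =>
      MvPolynomial.aeval ![q, q ^ (-s)] A / MvPolynomial.aeval ![q, q ^ (-s)] B) (𝓝[>] 1)
        (𝓝 (Polynomial.aeval s P / Polynomial.aeval s Q)))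

/-- the numerator of the topological zeta function of `R_{m,n}` -/
noncomputable def topNum (n : ℕ) : Polynomial ℤ :=
  ∏ j ∈ Finset.range n, (Polynomial.C (j : ℤ) * Polynomial.X + Polynomial.C ((j : ℤ) + 2))

/-- the denominator of the topological zeta function of `R_{m,n}` -/
noncomputable def topDen (m n : ℕ) : Polynomial ℤ :=
  (∏ j ∈ Finset.range n, (Polynomial.C ((j : ℤ) + 1) * (Polynomial.X + 1))) *
    (Polynomial.C (m : ℤ) * Polynomial.X + Polynomial.C ((n : ℤ) + 1))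

theorem slope_lim (a b : ℝ) :
    Tendsto (fun q : ℝ => (q ^ a - q ^ b) / (q - 1)) (𝓝[>] 1) (𝓝 (a - b)) := by
  have h1 : HasDerivAt (fun q : ℝ => q ^ a - q ^ b) (a - b) 1 := by
    have h2 := (Real.hasDerivAt_rpow_const (x := 1) (p := a) (Or.inl one_ne_zero)).fun_sub
      (Real.hasDerivAt_rpow_const (x := 1) (p := b) (Or.inl one_ne_zero))
    simpa using h2
  have h3 := (hasDerivAt_iff_tendsto_slope.1 h1).mono_left
    (nhdsWithin_mono (1 : ℝ) (fun x (hx : x ∈ Set.Ioi (1 : ℝ)) => (ne_of_gt hx : x ≠ 1)))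
  refine h3.congr fun q => ?_
  rw [slope_def_field, Real.one_rpow, Real.one_rpow, sub_self, sub_zero]

/-- the numerator of the uniform formula -/
noncomputable def unA (n : ℕ) : MvPolynomial (Fin 2) ℤ :=
  (MvPolynomial.X 0 - 1) * ∏ j ∈ Finset.range n,
    (MvPolynomial.X 0 ^ (j + 2) - MvPolynomial.X 1 ^ j)

/-- the denominator of the uniform formula -/
noncomputable def unB (m n : ℕ) : MvPolynomial (Fin 2) ℤ :=
  (∏ j ∈ Finset.range n, (MvPolynomial.X 0 ^ (j + 1) - MvPolynomial.X 1 ^ (j + 1))) *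
    (MvPolynomial.X 0 ^ (n + 1) - MvPolynomial.X 1 ^ m)

theorem unA_eval (n : ℕ) (q t : ℝ) : MvPolynomial.aeval ![q, t] (unA n) =
    (q - 1) * ∏ j ∈ Finset.range n, (q ^ (j + 2) - t ^ j) := by
  unfold unA
  simp [map_prod]

theorem unB_eval (m n : ℕ) (q t : ℝ) : MvPolynomial.aeval ![q, t] (unB m n) =
    (∏ j ∈ Finset.range n, (q ^ (j + 1) - t ^ (j + 1))) * (q ^ (n + 1) - t ^ m) := by
  unfold unB
  simp [map_prod]

theorem fac_pos (q s : ℝ) (hq : 1 < q) (hs : 0 < s) (a b : ℕ) (ha : 0 < a) :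
    0 < q ^ a - (q ^ (-s)) ^ b := by
  have h1 : 1 < q ^ a := one_lt_pow₀ hq ha.ne'
  have h2 : q ^ (-s) ≤ 1 := Real.rpow_le_one_of_one_le_of_nonpos hq.le (by linarith)
  have h3 : (q ^ (-s)) ^ b ≤ 1 := pow_le_one₀ (Real.rpow_nonneg (by linarith) _) h2
  linarith

theorem unB_pos (m n : ℕ) (q s : ℝ) (hq : 1 < q) (hs : 0 < s) :
    0 < MvPolynomial.aeval ![q, q ^ (-s)] (unB m n) := by
  rw [unB_eval]
  exact mul_pos (Finset.prod_pos fun j _ => fac_pos q s hq hs _ _ (Nat.succ_pos _))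
    (fac_pos q s hq hs _ _ (Nat.succ_pos _))

theorem zetaO_RS (O : Type) [CommRing O] [IsDomain O] [IsDiscreteValuationRing O]
    [TopologicalSpace O] [IsTopologicalRing O] [CompactSpace O] [T2Space O]
    [SecondCountableTopology O] [Finite (ResidueField O)] (m n : ℕ) (h : n ≤ m + 1) (s : ℝ)
    (hs : 0 < s) : zetaO O (RS m n) s = MvPolynomial.aeval ![(qq O : ℝ), (qq O : ℝ) ^ (-s)] (unA n) /
      MvPolynomial.aeval ![(qq O : ℝ), (qq O : ℝ) ^ (-s)] (unB m n) := by
  have hq : (1 : ℝ) < qq O := by exact_mod_cast qq_one_lt O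
  have hq0 : (qq O : ℝ) ≠ 0 := by linarith
  rw [eq_div_iff (unB_pos m n _ s hq hs).ne', unA_eval, unB_eval]
  have h0 : zetaO O (RS m n) s = (AA O m n s).toReal := by
    unfold zetaO AA tau
    simp only [aeval_RS]
    rfl
  rw [h0]
  have h1 := AA_form O s hs.le m n h
  have h3 : ∏ j ∈ Finset.range n, ((qq O : ℝ) ^ (j + 1) - ((qq O : ℝ) ^ (-s)) ^ (j + 1)) =
      (∏ j ∈ Finset.range n, (qq O : ℝ) ^ (j + 1)) *
        ∏ j ∈ Finset.range n, (1 - ((qq O : ℝ)⁻¹) ^ (j + 1) * ((qq O : ℝ) ^ (-s)) ^ (j + 1)) := by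
    rw [← Finset.prod_mul_distrib]
    refine Finset.prod_congr rfl fun j _ => ?_
    have : (qq O : ℝ) ^ (j + 1) ≠ 0 := pow_ne_zero _ hq0
    rw [inv_pow]
    field_simp
  have h4 : (qq O : ℝ) ^ (n + 1) - ((qq O : ℝ) ^ (-s)) ^ m =
      (qq O : ℝ) ^ (n + 1) * (1 - ((qq O : ℝ)⁻¹) ^ (n + 1) * ((qq O : ℝ) ^ (-s)) ^ m) := by
    have : (qq O : ℝ) ^ (n + 1) ≠ 0 := pow_ne_zero _ hq0
    rw [inv_pow]
    field_simp
  have h5 : ∏ j ∈ Finset.range n, ((qq O : ℝ) ^ (j + 2) - ((qq O : ℝ) ^ (-s)) ^ j) =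
      (∏ j ∈ Finset.range n, (qq O : ℝ) ^ (j + 2)) *
        ∏ j ∈ Finset.range n, (1 - ((qq O : ℝ)⁻¹) ^ (j + 2) * ((qq O : ℝ) ^ (-s)) ^ j) := by
    rw [← Finset.prod_mul_distrib]
    refine Finset.prod_congr rfl fun j _ => ?_
    have : (qq O : ℝ) ^ (j + 2) ≠ 0 := pow_ne_zero _ hq0
    rw [inv_pow]
    field_simp
  have h6 : (∏ j ∈ Finset.range n, (qq O : ℝ) ^ (j + 1)) * (qq O : ℝ) ^ (n + 1) =
      (∏ j ∈ Finset.range n, (qq O : ℝ) ^ (j + 2)) * (qq O : ℝ) := by
    have h7 := Finset.prod_range_succ (fun j => (qq O : ℝ) ^ (j + 1)) n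
    have h8 := Finset.prod_range_succ' (fun j => (qq O : ℝ) ^ (j + 1)) n
    rw [← h7, h8]
    simp
  have h9 : (qq O : ℝ) - 1 = (qq O : ℝ) * (1 - (qq O : ℝ)⁻¹) := by
    field_simp
  rw [h3, h4, h5, h9]
  linear_combination (∏ j ∈ Finset.range n, (qq O : ℝ) ^ (j + 1)) * (qq O : ℝ) ^ (n + 1) * h1 +
    (1 - (qq O : ℝ)⁻¹) *
        (∏ j ∈ Finset.range n, (1 - ((qq O : ℝ)⁻¹) ^ (j + 2) * ((qq O : ℝ) ^ (-s)) ^ j)) * h6

theorem un_lim (m n : ℕ) (s : ℝ) (hs : 0 < s) : Tendsto (fun q : ℝ =>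
      MvPolynomial.aeval ![q, q ^ (-s)] (unA n) / MvPolynomial.aeval ![q, q ^ (-s)] (unB m n))
        (𝓝[>] 1) (𝓝 (Polynomial.aeval s (topNum n) / Polynomial.aeval s (topDen m n))) := by
  have hl : ∀ a b : ℕ, Tendsto (fun q : ℝ => (q ^ a - (q ^ (-s)) ^ b) / (q - 1)) (𝓝[>] 1)
      (𝓝 ((a : ℝ) + b * s)) := by
    intro a b
    have h1 := slope_lim (a : ℝ) (-s * b)
    have h2 : (a : ℝ) - -s * b = (a : ℝ) + b * s := by ring
    rw [h2] at h1
    refine h1.congr' ?_
    filter_upwards [self_mem_nhdsWithin] with q hq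
    have hq0 : (0 : ℝ) < q := lt_trans one_pos hq
    rw [Real.rpow_natCast, Real.rpow_mul hq0.le, Real.rpow_natCast]
  have hN : Tendsto (fun q : ℝ => ∏ j ∈ Finset.range n, (q ^ (j + 2) - (q ^ (-s)) ^ j) / (q - 1))
      (𝓝[>] 1) (𝓝 (∏ j ∈ Finset.range n, (((j + 2 : ℕ) : ℝ) + j * s))) :=
    tendsto_finsetProd _ fun j _ => hl (j + 2) j
  have hD : Tendsto (fun q : ℝ => (∏ j ∈ Finset.range n,
      (q ^ (j + 1) - (q ^ (-s)) ^ (j + 1)) / (q - 1)) * ((q ^ (n + 1) - (q ^ (-s)) ^ m) / (q - 1)))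
      (𝓝[>] 1) (𝓝 ((∏ j ∈ Finset.range n, (((j + 1 : ℕ) : ℝ) + (j + 1 : ℕ) * s)) *
        (((n + 1 : ℕ) : ℝ) + m * s))) :=
    (tendsto_finsetProd _ fun j _ => hl (j + 1) (j + 1)).mul (hl (n + 1) m)
  have hne : (∏ j ∈ Finset.range n, (((j + 1 : ℕ) : ℝ) + (j + 1 : ℕ) * s)) *
        (((n + 1 : ℕ) : ℝ) + m * s) ≠ 0 := by
    refine (mul_pos (Finset.prod_pos fun j _ => ?_) ?_).ne' <;> positivity
  have hlim := hN.div hD hne
  have h1 : (∏ j ∈ Finset.range n, (((j + 2 : ℕ) : ℝ) + j * s)) = Polynomial.aeval s (topNum n) := by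
    unfold topNum
    rw [map_prod]
    refine Finset.prod_congr rfl fun j _ => ?_
    rw [map_add, map_mul, Polynomial.aeval_C, Polynomial.aeval_X, Polynomial.aeval_C]
    push_cast
    simp
    ring
  have h2 : (∏ j ∈ Finset.range n, (((j + 1 : ℕ) : ℝ) + (j + 1 : ℕ) * s)) *
        (((n + 1 : ℕ) : ℝ) + m * s) = Polynomial.aeval s (topDen m n) := by
    unfold topDen
    rw [map_mul, map_prod]
    congr 1
    · refine Finset.prod_congr rfl fun j _ => ?_
      simp
      ring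
    · simp
      ring
  rw [h1, h2] at hlim
  refine hlim.congr' ?_
  filter_upwards [self_mem_nhdsWithin] with q hq
  have hq1 : q - 1 ≠ 0 := by
    have : (1 : ℝ) < q := hq
    linarith
  rw [unA_eval, unB_eval, Pi.div_apply]
  simp only [Finset.prod_div_distrib, Finset.prod_const, Finset.card_range]
  have hq2 : (q - 1) ^ n ≠ 0 := pow_ne_zero _ hq1
  have hB := unB_pos m n q s hq hs
  rw [unB_eval] at hB
  have hB' := (pos_iff_pos_of_mul_pos hB)
  have hB1 : (∏ j ∈ Finset.range n, (q ^ (j + 1) - (q ^ (-s)) ^ (j + 1))) ≠ 0 :=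
    left_ne_zero_of_mul hB.ne'
  have hB2 : (q ^ (n + 1) - (q ^ (-s)) ^ m) ≠ 0 := right_ne_zero_of_mul hB.ne'
  field_simp

/-- **The topological zeta function of the resultant.** -/
theorem isTopZeta_RS (m n : ℕ) (h : n ≤ m + 1) : IsTopZeta (RS m n) (topNum n) (topDen m n) where
  ne_zero := by
    unfold topDen
    refine mul_ne_zero (Finset.prod_ne_zero_iff.2 fun j _ => mul_ne_zero ?_ ?_) ?_
    · rw [Polynomial.C_ne_zero]
      positivity
    · intro h1
      have h2 := congrArg (Polynomial.eval 0) h1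
      simp at h2
    · intro h1
      have h2 := congrArg (Polynomial.eval 0) h1
      simp at h2
      omega
  formula := by
    refine ⟨unA n, unB m n, fun q s hq hs => (unB_pos m n q s hq hs).ne', ?_, fun s hs =>
      un_lim m n s hs⟩
    intro O _ _ _ _ _ _ _ _ _ q hq s hs
    rw [hq]
    exact zetaO_RS O m n h s hs

open Polynomial in
/-- **`b_f` times the topological zeta function is a polynomial.** -/
theorem topDen_dvd (m n : ℕ) (h : n < m) (b : ℂ[X])
    (hb : Pool.Agent.H628R4.TP.IsBFunction (RSC m n) b) :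
    (topDen m n).map (Int.castRingHom ℂ) ∣ b := by
  have hCH := Pool.Agent.K1H74.RS.t_CH Pool.Agent.K1H63.RS.t_NC
  have h1 := hCH n m (by omega) b hb
  have hm0 : (m : ℂ) ≠ 0 := by
    have : m ≠ 0 := by omega
    exact_mod_cast this
  have h2 : (topDen m n).map (Int.castRingHom ℂ) =
      C (∏ j ∈ Finset.range n, ((j : ℂ) + 1)) * C (m : ℂ) *
        ((X + 1) ^ n * (X - C (-((n : ℂ) + 1) / m))) := by
    unfold topDen
    rw [Polynomial.map_mul, Polynomial.map_prod]
    have h3 : ∏ j ∈ Finset.range n, Polynomial.map (Int.castRingHom ℂ)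
        (C ((j : ℤ) + 1) * (X + 1)) = C (∏ j ∈ Finset.range n, ((j : ℂ) + 1)) * (X + 1) ^ n := by
      rw [map_prod]
      have h4 : ((X + 1 : ℂ[X])) ^ n = ∏ _j ∈ Finset.range n, (X + 1 : ℂ[X]) := by
        rw [Finset.prod_const, Finset.card_range]
      rw [h4, ← Finset.prod_mul_distrib]
      exact Finset.prod_congr rfl fun j _ => by simp
    have h5 : Polynomial.map (Int.castRingHom ℂ) (C (m : ℤ) * X + C ((n : ℤ) + 1)) =
        C (m : ℂ) * (X - C (-((n : ℂ) + 1) / m)) := by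
      have h6 : C (m : ℂ) * C (-((n : ℂ) + 1) / m) = C (-((n : ℂ) + 1)) := by
        rw [← C_mul]
        congr 1
        field_simp
      rw [mul_sub, h6]
      simp
      ring
    rw [h3, h5]
    ring
  have hc : IsUnit (C (∏ j ∈ Finset.range n, ((j : ℂ) + 1)) * C (m : ℂ) : ℂ[X]) := by
    refine (Polynomial.isUnit_C.2 (isUnit_iff_ne_zero.2 ?_)).mul
      (Polynomial.isUnit_C.2 (isUnit_iff_ne_zero.2 hm0))
    refine Finset.prod_ne_zero_iff.2 fun j _ => ?_
    exact_mod_cast Nat.succ_ne_zero j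
  rw [h2, hc.mul_left_dvd]
  by_cases hm : m = n + 1
  · have h3 := hCH m n (by omega) b (Pool.Agent.K1H14.RS.t_SW m n b hb)
    have h4 : (X - C (-((n : ℂ) + 1) / m) : ℂ[X]) = X + 1 := by
      have h5 : -((n : ℂ) + 1) / m = -1 := by
        rw [hm] at hm0 ⊢
        push_cast at hm0 ⊢
        field_simp
      rw [h5, C_neg, C_1, sub_neg_eq_add]
    rw [h4, ← pow_succ, ← hm]
    exact h3
  · have h3 := Pool.Agent.K1H68.RS.t_ROOT Pool.Agent.K1H74.RS.t_SPEC Pool.Agent.K1H68.RS.t_DIR m n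
      (by omega) b hb
    refine IsCoprime.mul_dvd ?_ h1 (dvd_iff_isRoot.2 h3)
    refine IsCoprime.pow_left ?_
    have h4 : (X + 1 : ℂ[X]) = X - C (-1) := by
      rw [C_neg, C_1, sub_neg_eq_add]
    rw [h4]
    refine isCoprime_X_sub_C_of_isUnit_sub ?_
    rw [isUnit_iff_ne_zero]
    intro h5
    apply hm
    have h6 : ((n : ℂ) + 1) / m = 1 := by
      have : -1 - -((n : ℂ) + 1) / m = 0 := h5
      rw [neg_div] at this
      linear_combination this
    rw [div_eq_one_iff_eq hm0] at h6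
    exact_mod_cast h6.symm

end Pool.Agent.K1H20.RS.DV
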